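import Pool.Agent.Run7.h913.ED

set_option autoImplicit false

/-! Task E of MP_77db41_gt: the λ-system of a truncated hyperbolic manifold. -/

namespace Run7.h913

open Run7.h230

variable {m : ℕ}

theorem adj3 {a b c d : LV m} (ha : a ∈ Hyp m) (hb : b ∈ Hyp m) (hc : c ∈ Hyp m)
    (hd : d ∈ Hyp m) : √(lor a d) ≤ 4 * √(lor a b) * √(lor b c) * √(lor c d) := by
  have h1 := adj (hyp_fut ha) (hyp_fut hd) hb
  have h2 := adj (hyp_fut hb) (hyp_fut hd) hc
  have h3 : 2 * √(lor a b) * √(lor b d) ≤ 2 * √(lor a b) * (2 * √(lor b c) * √(lor c d)) :=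
    mul_le_mul_of_nonneg_left h2 (by positivity)
  linarith

/-- projections to a horosphere -/
theorem proj_bounds {ξ x y : LV m} (hξ : ξ ∈ Cone m) (hx : x ∈ Fut m) (hy : y ∈ Fut m)
    (hx1 : lor x x ≤ 1) (hy1 : lor y y ≤ 1) (hxξ : 1 ≤ lor x ξ) (hyξ : 1 ≤ lor y ξ)
    (v : LV m) (hv : v = (lor x ξ)⁻¹ • x - (lor y ξ)⁻¹ • y) :
    lor v ξ = 0 ∧ √(- lor v v) ≤ 2 * (√(lor x y) / (√(lor x ξ) * √(lor ξ y))) ∧
      √(lor x y) / (√(lor x ξ) * √(lor ξ y)) ≤ √(- lor v v) + 1 := by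
  have px : 0 < lor x ξ := by linarith
  have py : 0 < lor y ξ := by linarith
  have hq := fut_lor_nonneg hx hy
  have e0 : lor v ξ = 0 := by
    rw [hv, lor_sub_left, lor_smul_left, lor_smul_left, inv_mul_cancel₀ px.ne',
      inv_mul_cancel₀ py.ne', sub_self]
  set ρ := √(lor x y) / (√(lor x ξ) * √(lor ξ y)) with hρ
  have hρ0 : 0 ≤ ρ := by positivity
  have hρ2 : ρ ^ 2 = lor x y / (lor x ξ * lor y ξ) := by
    rw [hρ, div_pow, mul_pow, Real.sq_sqrt hq, Real.sq_sqrt px.le, lor_comm ξ y,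
      Real.sq_sqrt py.le]
  set a := lor x x / (lor x ξ) ^ 2 with ha
  set b := lor y y / (lor y ξ) ^ 2 with hb
  have ha0 : 0 ≤ a := div_nonneg hx.1 (by positivity)
  have hb0 : 0 ≤ b := div_nonneg hy.1 (by positivity)
  have ha1 : a ≤ 1 := by
    rw [ha, div_le_one (by positivity)]
    nlinarith
  have hb1 : b ≤ 1 := by
    rw [hb, div_le_one (by positivity)]
    nlinarith
  have e1 : - lor v v = 2 * ρ ^ 2 - a - b := by
    rw [hρ2, ha, hb, hv, lor_sub_left, lor_sub_right, lor_sub_right, lor_smul_left, lor_smul_left,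
      lor_smul_left, lor_smul_left, lor_smul_right, lor_smul_right, lor_smul_right,
      lor_smul_right, lor_comm y x]
    field_simp
    ring
  have hnn : 0 ≤ - lor v v := by
    have := lor_perp_nonpos hξ e0
    linarith
  refine ⟨e0, ?_, ?_⟩
  · rw [Real.sqrt_le_left (by positivity)]
    nlinarith
  · have h1 := Real.sq_sqrt hnn
    have h2 := Real.sqrt_nonneg (- lor v v)
    have h3 : ρ ^ 2 ≤ (√(- lor v v) + 1) ^ 2 := by nlinarith
    exact abs_le_of_sq_le_sq' h3 (by linarith) |>.2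

theorem taskE : TaskE := by
  intro m n N hN hT hm hmn E _ ξ hdist T S hTS SF α hα
  classical
  obtain ⟨x₀, h₀, hout⟩ := exists_base hT
  obtain ⟨Tt, St, αt, hcc, hinv, hmark, hΛ, hsup, C₀, hC₀⟩ :=
    coords hN hT hm hmn ξ hdist T S hTS SF α hα
  obtain ⟨C₁, hC₁1, hC₁⟩ := cocomp hN hT h₀
  -- the constant of the coordinates
  obtain ⟨C, hC1, hC⟩ : ∃ C : ℝ, 1 ≤ C ∧ ∀ (η : N.Ξ) (v : LV m), lor v (η : LV m) = 0 →
      √(- lor v v) ≤ C * ‖Tt η v‖ ∧ ‖Tt η v‖ ≤ C * √(- lor v v) := by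
    refine ⟨max 1 C₀, le_max_left _ _, fun η v hv => ?_⟩
    obtain ⟨h1, h2⟩ := hC₀ η v hv
    exact ⟨le_trans h1 (mul_le_mul_of_nonneg_right (le_max_right _ _) (norm_nonneg _)),
      le_trans h2 (mul_le_mul_of_nonneg_right (le_max_right _ _) (Real.sqrt_nonneg _))⟩
  let act : MulAction N.Γ N.Ξ :=
    { smul := fun γ η => ⟨(γ : LV m ≃ₗ[ℝ] LV m) η, hT.inv _ γ.2 _ η.2⟩
      one_smul := fun η => rfl
      mul_smul := fun γ δ η => rfl }
  have act_coe : ∀ (γ : N.Γ) (η : N.Ξ), ((γ • η : N.Ξ) : LV m) =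
    (γ : LV m ≃ₗ[ℝ] LV m) (η : LV m) := fun _ _ => rfl
  -- the objects
  let o : N.Γ ⊕ N.Ξ → LV m := Sum.elim (fun γ => (γ : LV m ≃ₗ[ℝ] LV m) x₀) (fun η => (η : LV m))
  have o_inl : ∀ γ : N.Γ, o (Sum.inl γ) = (γ : LV m ≃ₗ[ℝ] LV m) x₀ := fun _ => rfl
  have o_inr : ∀ η : N.Ξ, o (Sum.inr η) = (η : LV m) := fun _ => rfl
  have hypo : ∀ γ : N.Γ, o (Sum.inl γ) ∈ Hyp m := fun γ => hN.hyp_map γ γ.2 x₀ h₀
  have coneo : ∀ η : N.Ξ, o (Sum.inr η) ∈ Cone m := fun η => hT.cone η η.2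
  have futo : ∀ x, o x ∈ Fut m := fun x => by
    rcases x with γ | η
    · exact hyp_fut (hypo γ)
    · exact cone_fut (coneo η)
  have selfo : ∀ x, lor (o x) (o x) ≤ 1 := fun x => by
    rcases x with γ | η
    · exact (hypo γ).1.le
    · rw [(coneo η).1]; exact zero_le_one
  have outo : ∀ (γ : N.Γ), ∀ η ∈ N.Ξ, 1 ≤ lor (o (Sum.inl γ)) η := fun γ η hη => by
    have e : lor (o (Sum.inl γ)) η = lor x₀ ((γ : LV m ≃ₗ[ℝ] LV m)⁻¹ η) := by
      rw [← hN.lor_map γ γ.2 x₀]
      congr 1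
      exact ((γ : LV m ≃ₗ[ℝ] LV m).apply_symm_apply η).symm
    rw [e]
    exact hout _ (hT.inv _ (N.Γ.inv_mem γ.2) η hη)
  have geo1 : ∀ x y, x ≠ y → 1 ≤ lor (o x) (o y) := fun x y hxy => by
    rcases x with γ | η
    · rcases y with δ | ζ
      · exact hyp_hyp (hypo γ) (hypo δ)
      · exact outo γ ζ ζ.2
    · rcases y with δ | ζ
      · rw [lor_comm]; exact outo δ η η.2
      · have : (η : LV m) ≠ ζ := fun h => hxy (by rw [Subtype.ext h])
        have := lor_gt_two hT η.2 ζ.2 this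
        show 1 ≤ lor (η : LV m) ζ
        linarith
  have gacto : ∀ (g : N.Γ) x, o (gact g x) = (g : LV m ≃ₗ[ℝ] LV m) (o x) := fun g x => by
    rcases x with γ | η
    · rfl
    · rfl
  -- constants
  set D : ℝ := 64 * C * C₁ ^ 3 with hD
  have c1 : C₁ ≤ C₁ ^ 3 := by nlinarith [mul_nonneg (show 0 ≤ C₁ by linarith) (show 0 ≤ C₁ ^ 2 - 1 by nlinarith)]
  have c2 : 1 ≤ C₁ ^ 3 := le_trans hC₁1 c1
  have sC : √C₁ ≤ C₁ := by
    rw [Real.sqrt_le_left (by linarith)]; nlinarith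
  have sC0 := Real.sqrt_nonneg C₁
  have hD64 : 64 * C₁ ^ 3 ≤ D := by rw [hD]; nlinarith
  have hD2C : 2 * C * √C₁ ≤ D := by
    have : 2 * C * √C₁ ≤ 2 * C * C₁ ^ 3 := mul_le_mul_of_nonneg_left (by linarith) (by linarith)
    have : 0 ≤ C * C₁ ^ 3 := by positivity
    rw [hD]; nlinarith
  have hDC : 2 * C ≤ D := by rw [hD]; nlinarith
  have hD1 : 1 ≤ D := by linarith
  have hDs : 2 * √C₁ ≤ D := by nlinarith
  have hD8 : 8 * C₁ ≤ D := by nlinarith
  let 𝓛 : LSp (N.Γ ⊕ N.Ξ) (Fin n ⊕ Fin n) :=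
    { hb := Set.range Sum.inr
      lam := fun x y => √(lor (o x) (o y))
      P := fun B y => Sum.elim (fun _ => 0) (fun η => Tt η ((lor (o y) (η : LV m))⁻¹ • o y)) B
      S := fun B => Sum.elim (fun _ => ∅) St B
      D := D }
  have lamdef : ∀ x y, 𝓛.lam x y = √(lor (o x) (o y)) := fun _ _ => rfl
  have Pdef : ∀ (η : N.Ξ) y, 𝓛.P (Sum.inr η) y = Tt η ((lor (o y) (η : LV m))⁻¹ • o y) :=
    fun _ _ => rfl
  have rhodef : ∀ (η : N.Ξ) x y, 𝓛.rho (Sum.inr η) x y =
    √(lor (o x) (o y)) / (√(lor (o x) (η : LV m)) * √(lor (η : LV m) (o y))) := fun _ _ _ => rfl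
  have good : 𝓛.Good := by
    refine
      { D_ge := hD1
        symm := fun x y => by rw [lamdef, lamdef, lor_comm]
        pt := ?_
        hbb := ?_
        ge := fun x y hxy => by
          rw [lamdef]
          exact Real.one_le_sqrt.2 (geo1 x y hxy)
        ptol := fun x y z w => ptol (futo x) (futo y) (futo z) (futo w)
        P_le := ?_
        le_P := ?_
        supp := ?_
        real := ?_
        chain := ?_ }
    · intro x hx
      rcases x with γ | η
      · rw [lamdef, (hypo γ).1, Real.sqrt_one]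
      · exact absurd ⟨η, rfl⟩ hx
    · rintro _ ⟨η, rfl⟩
      rw [lamdef, (coneo η).1, Real.sqrt_zero]
    · rintro _ ⟨η, rfl⟩ x y hx hy
      obtain ⟨h1, h2, -⟩ := proj_bounds (coneo η) (futo x) (futo y) (selfo x) (selfo y)
        (geo1 x _ hx) (geo1 y _ hy) _ rfl
      simp only [o_inr] at h1 h2
      rw [rhodef, Pdef, Pdef, ← map_sub]
      refine le_trans (hC η _ h1).2 ?_
      have h3 : 0 ≤ √(lor (o x) (o y)) / (√(lor (o x) (η : LV m)) * √(lor (η : LV m) (o y))) := by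
        positivity
      calc C * _ ≤ C * (2 * _) := mul_le_mul_of_nonneg_left h2 (by linarith)
        _ = (2 * C) * _ := by ring
        _ ≤ _ := mul_le_mul_of_nonneg_right hDC h3
    · rintro _ ⟨η, rfl⟩ x y hx hy
      obtain ⟨h1, -, h2⟩ := proj_bounds (coneo η) (futo x) (futo y) (selfo x) (selfo y)
        (geo1 x _ hx) (geo1 y _ hy) _ rfl
      simp only [o_inr] at h1 h2
      rw [rhodef, Pdef, Pdef, ← map_sub]
      refine le_trans h2 ?_
      have h3 := (hC η _ h1).1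
      set w := ‖Tt η ((lor (o x) (η : LV m))⁻¹ • o x - (lor (o y) (η : LV m))⁻¹ • o y)‖ with hw
      have hw0 : 0 ≤ w := norm_nonneg _
      have h4 : C * w ≤ D * w := mul_le_mul_of_nonneg_right (by linarith) hw0
      have h5 := le_trans h3 h4
      show _ ≤ D * (w + 1)
      have h6 : √(- lor ((lor (o x) (η : LV m))⁻¹ • o x - (lor (o y) (η : LV m))⁻¹ • o y)
        ((lor (o x) (η : LV m))⁻¹ • o x - (lor (o y) (η : LV m))⁻¹ • o y)) ≤ D * w := h5
      calc _ ≤ D * w + 1 := add_le_add h6 (le_refl _)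
        _ ≤ D * w + D := by linarith
        _ = _ := by ring
    · rintro _ ⟨η, rfl⟩ x y hx hy
      obtain ⟨h1, -, -⟩ := proj_bounds (coneo η) (futo x) (futo y) (selfo x) (selfo y)
        (geo1 x _ hx) (geo1 y _ hy) _ rfl
      rw [Pdef, Pdef, ← map_sub]
      exact (hcc η).supp _ h1
    · rintro _ ⟨η, rfl⟩ y hy v hv
      obtain ⟨u, hu, hu2⟩ := (hcc η).surj v hv
      have hyη : 1 ≤ lor (o y) (η : LV m) := geo1 y _ hy
      have hy0 : 0 < lor (o y) (η : LV m) := by linarith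
      obtain ⟨r, hr1, hr2⟩ := push_hyp (y := (lor (o y) (η : LV m))⁻¹ • o y + u) (coneo η) (by
        rw [lor_add_left, lor_smul_left]
        show _ * lor (o y) (η : LV m) + lor u (η : LV m) = 1
        rw [inv_mul_cancel₀ hy0.ne', hu, add_zero])
      rw [o_inr] at hr1 hr2
      set y₀ := (lor (o y) (η : LV m))⁻¹ • o y + u + r • (η : LV m) with hy₀
      obtain ⟨γ, hγ, hγ1⟩ := hC₁ y₀ hr1 (horo_out hT η.2 hr1 hr2)
      refine ⟨Sum.inl ⟨γ, hγ⟩, ?_, ?_, ?_⟩
      · rintro ⟨η', h⟩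
        cases h
      · have h1 := adj (futo (Sum.inl ⟨γ, hγ⟩)) (cone_fut (coneo η)) hr1
        rw [o_inr, hr2, Real.sqrt_one, mul_one] at h1
        have h2 : √(lor (o (Sum.inl ⟨γ, hγ⟩)) y₀) ≤ √C₁ := by
          rw [lor_comm]
          exact Real.sqrt_le_sqrt hγ1
        show √(lor (o (Sum.inl ⟨γ, hγ⟩)) (η : LV m)) ≤ D
        linarith
      · have hz1 : 1 ≤ lor (o (Sum.inl ⟨γ, hγ⟩)) (η : LV m) := outo _ _ η.2
        obtain ⟨h1, h2, -⟩ := proj_bounds (coneo η) (futo (Sum.inl ⟨γ, hγ⟩)) (hyp_fut hr1)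
          (selfo _) hr1.1.le hz1 hr2.ge _ rfl
        rw [o_inr] at h1 h2
        have e1 : Tt η ((lor y₀ (η : LV m))⁻¹ • y₀) = 𝓛.P (Sum.inr η) y + v := by
          rw [hr2, inv_one, one_smul, Pdef, hy₀, map_add, map_add, map_smul (Tt η) r,
            (hcc η).map_self, smul_zero, add_zero, hu2]
        rw [Pdef, ← e1, ← map_sub]
        refine le_trans (hC η _ h1).2 ?_
        have h3 : √(lor (o (Sum.inl ⟨γ, hγ⟩)) y₀) ≤ √C₁ := by
          rw [lor_comm]
          exact Real.sqrt_le_sqrt hγ1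
        have h4 : √(lor (o (Sum.inl ⟨γ, hγ⟩)) y₀) /
            (√(lor (o (Sum.inl ⟨γ, hγ⟩)) (η : LV m)) * √(lor (η : LV m) y₀)) ≤ √C₁ := by
          rw [lor_comm (η : LV m) y₀, hr2, Real.sqrt_one, mul_one]
          refine le_trans (div_le_self (Real.sqrt_nonneg _) (Real.one_le_sqrt.2 hz1)) h3
        calc C * _ ≤ C * (2 * _) := mul_le_mul_of_nonneg_left h2 (by linarith)
          _ ≤ C * (2 * √C₁) :=
            mul_le_mul_of_nonneg_left (mul_le_mul_of_nonneg_left h4 (by norm_num)) (by linarith)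
          _ = 2 * C * √C₁ := by ring
          _ ≤ D := hD2C
    · intro x y hx hy
      rcases x with γ | η
      swap
      · exact absurd ⟨η, rfl⟩ hx
      rcases y with δ | η
      swap
      · exact absurd ⟨η, rfl⟩ hy
      obtain ⟨k, c, hk, hc0, hck, hc1, hc2, hc3⟩ := chain_pts hT (hypo γ) (hypo δ)
        (outo γ) (outo δ)
      have hz : ∀ i, ∃ z : N.Γ, (i ≤ k → lor (c i) (o (Sum.inl z)) ≤ C₁) ∧
          (i = 0 → z = γ) ∧ (i = k → z = δ) := by
        intro i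
        by_cases h0 : i = 0
        · refine ⟨γ, fun _ => ?_, fun _ => rfl, fun h => absurd (h0.symm.trans h).symm hk⟩
          rw [h0, hc0, (hypo γ).1]; exact hC₁1
        · by_cases hik : i = k
          · refine ⟨δ, fun _ => ?_, fun h => absurd h h0, fun _ => rfl⟩
            rw [hik, hck, (hypo δ).1]; exact hC₁1
          · by_cases hi : i ≤ k
            · obtain ⟨z, hz, hz1⟩ := hC₁ (c i) (hc1 i hi).1 (hc1 i hi).2
              exact ⟨⟨z, hz⟩, fun _ => hz1, fun h => absurd h h0, fun h => absurd h hik⟩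
            · exact ⟨1, fun h => absurd h hi, fun h => absurd h h0, fun h => absurd h hik⟩
      choose z hz1 hz2 hz3 using hz
      have hs : ∀ i, i ≤ k → √(lor (c i) (o (Sum.inl (z i)))) ≤ √C₁ := fun i hi =>
        Real.sqrt_le_sqrt (hz1 i hi)
      have hs' : ∀ i, i ≤ k → √(lor (o (Sum.inl (z i))) (c i)) ≤ √C₁ := fun i hi => by
        rw [lor_comm]; exact hs i hi
      have hsC : √C₁ * √C₁ = C₁ := Real.mul_self_sqrt (by linarith)
      -- comparison
      have hcomp : ∀ i j, i ≤ k → j ≤ k →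
          √(lor (o (Sum.inl (z i))) (o (Sum.inl (z j)))) ≤ 4 * C₁ * √(lor (c i) (c j)) := by
        intro i j hi hj
        have h1 := adj3 (hypo (z i)) (hc1 i hi).1 (hc1 j hj).1 (hypo (z j))
        refine le_trans h1 ?_
        have h2 : √(lor (o (Sum.inl (z i))) (c i)) * √(lor (c j) (o (Sum.inl (z j)))) ≤
            √C₁ * √C₁ := mul_le_mul (hs' i hi) (hs j hj) (Real.sqrt_nonneg _) sC0
        rw [hsC] at h2
        calc 4 * √(lor (o (Sum.inl (z i))) (c i)) * √(lor (c i) (c j)) *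
              √(lor (c j) (o (Sum.inl (z j))))
            = 4 * √(lor (c i) (c j)) * (√(lor (o (Sum.inl (z i))) (c i)) *
              √(lor (c j) (o (Sum.inl (z j))))) := by ring
          _ ≤ 4 * √(lor (c i) (c j)) * C₁ := mul_le_mul_of_nonneg_left h2 (by positivity)
          _ = _ := by ring
      have hcomp' : ∀ i j, i ≤ k → j ≤ k →
          √(lor (c i) (c j)) ≤ 4 * C₁ * √(lor (o (Sum.inl (z i))) (o (Sum.inl (z j)))) := by
        intro i j hi hj
        have h1 := adj3 (hc1 i hi).1 (hypo (z i)) (hypo (z j)) (hc1 j hj).1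
        refine le_trans h1 ?_
        have h2 : √(lor (c i) (o (Sum.inl (z i)))) * √(lor (o (Sum.inl (z j))) (c j)) ≤
            √C₁ * √C₁ := mul_le_mul (hs i hi) (hs' j hj) (Real.sqrt_nonneg _) sC0
        rw [hsC] at h2
        calc 4 * √(lor (c i) (o (Sum.inl (z i)))) *
              √(lor (o (Sum.inl (z i))) (o (Sum.inl (z j)))) * √(lor (o (Sum.inl (z j))) (c j))
            = 4 * √(lor (o (Sum.inl (z i))) (o (Sum.inl (z j)))) *
              (√(lor (c i) (o (Sum.inl (z i)))) * √(lor (o (Sum.inl (z j))) (c j))) := by ring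
          _ ≤ 4 * √(lor (o (Sum.inl (z i))) (o (Sum.inl (z j)))) * C₁ :=
            mul_le_mul_of_nonneg_left h2 (by positivity)
          _ = _ := by ring
      refine ⟨k, fun i => Sum.inl (z i), ?_, ?_, ?_, ?_, ?_⟩
      · show Sum.inl (z 0) = Sum.inl γ
        rw [hz2 0 rfl]
      · show Sum.inl (z k) = Sum.inl δ
        rw [hz3 k rfl]
      · rintro i _ ⟨η, h⟩
        cases h
      · intro i hi
        rcases hc2 i hi with h | ⟨η, hη, h1, h2⟩
        · left
          rw [lamdef]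
          refine le_trans (hcomp i (i + 1) (by omega) (by omega)) ?_
          have h3 : √(lor (c i) (c (i + 1))) ≤ 2 := by
            rw [Real.sqrt_le_left (by norm_num)]; linarith
          nlinarith
        · right
          refine ⟨Sum.inr ⟨η, hη⟩, ⟨_, rfl⟩, ?_, ?_⟩
          · have h3 := adj (futo (Sum.inl (z i))) (cone_fut (hT.cone η hη)) (hc1 i (by omega)).1
            rw [h1, Real.sqrt_one, mul_one] at h3
            have h4 := hs' i (by omega)
            show √(lor (o (Sum.inl (z i))) η) ≤ D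
            linarith
          · have h3 := adj (futo (Sum.inl (z (i + 1)))) (cone_fut (hT.cone η hη))
              (hc1 (i + 1) (by omega)).1
            rw [h2, Real.sqrt_one, mul_one] at h3
            have h4 := hs' (i + 1) (by omega)
            show √(lor (o (Sum.inl (z (i + 1)))) η) ≤ D
            linarith
      · intro i j l hij hjl hl
        rw [lamdef, lamdef, lamdef]
        have h1 := hcomp i j (by omega) (by omega)
        have h2 := hcomp j l (by omega) hl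
        have h3 := hcomp' i l (by omega) hl
        have h4 : √(lor (c i) (c j)) * √(lor (c j) (c l)) ≤ √(lor (c i) (c l)) := by
          rw [← Real.sqrt_mul (fut_lor_nonneg (hyp_fut (hc1 i (by omega)).1)
            (hyp_fut (hc1 j (by omega)).1))]
          exact Real.sqrt_le_sqrt (hc3 i j l hij hjl hl)
        have hC0 : 0 ≤ C₁ := by linarith
        calc √(lor (o (Sum.inl (z i))) (o (Sum.inl (z j)))) *
              √(lor (o (Sum.inl (z j))) (o (Sum.inl (z l))))
            ≤ (4 * C₁ * √(lor (c i) (c j))) * (4 * C₁ * √(lor (c j) (c l))) :=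
              mul_le_mul h1 h2 (Real.sqrt_nonneg _) (by positivity)
          _ = 16 * C₁ ^ 2 * (√(lor (c i) (c j)) * √(lor (c j) (c l))) := by ring
          _ ≤ 16 * C₁ ^ 2 * √(lor (c i) (c l)) := mul_le_mul_of_nonneg_left h4 (by positivity)
          _ ≤ 16 * C₁ ^ 2 * (4 * C₁ * √(lor (o (Sum.inl (z i))) (o (Sum.inl (z l))))) :=
              mul_le_mul_of_nonneg_left h3 (by positivity)
          _ = 64 * C₁ ^ 3 * √(lor (o (Sum.inl (z i))) (o (Sum.inl (z l)))) := by ring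
          _ ≤ D * √(lor (o (Sum.inl (z i))) (o (Sum.inl (z l)))) :=
              mul_le_mul_of_nonneg_right hD64 (Real.sqrt_nonneg _)
  refine ⟨act, { 𝓛 := 𝓛, cusp := ξ, α := αt, SF := SF }, ?_, act_coe, rfl, fun _ => rfl,
    fun e => (hmark e).1, fun e => (hmark e).2.1, ?_⟩
  · refine
      { good := good
        hb := rfl
        inv_lam := ?_
        inv_P := ?_
        inv_S := fun g B => (hinv g g.2 B (g • B) rfl).2.1
        inv_α := fun g B => (hinv g g.2 B (g • B) rfl).2.2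
        bdd_α := hΛ
        supp_α := hsup
        proper := ?_
        locfin := ?_
        distinct := ?_ }
    · intro g x y
      show √(lor (o (gact g x)) (o (gact g y))) = √(lor (o x) (o y))
      rw [gacto, gacto, hN.lor_map g g.2]
    · intro g B x y hx hy
      show Tt (g • B) ((lor (o (gact g x)) ((g • B : N.Ξ) : LV m))⁻¹ • o (gact g x)) -
        Tt (g • B) ((lor (o (gact g y)) ((g • B : N.Ξ) : LV m))⁻¹ • o (gact g y)) =
        Tt B ((lor (o x) (B : LV m))⁻¹ • o x) - Tt B ((lor (o y) (B : LV m))⁻¹ • o y)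
      rw [gacto, gacto, act_coe, hN.lor_map g g.2, hN.lor_map g g.2, ← map_sub, ← map_sub,
        ← map_smul (g : LV m ≃ₗ[ℝ] LV m), ← map_smul (g : LV m ≃ₗ[ℝ] LV m),
        ← map_sub (g : LV m ≃ₗ[ℝ] LV m)]
      refine (hinv g g.2 B (g • B) rfl).1 _ ?_
      exact (proj_bounds (coneo B) (futo x) (futo y) (selfo x) (selfo y)
        (geo1 x _ hx) (geo1 y _ hy) _ rfl).1
    · intro r
      refine Set.Finite.subset (Set.Finite.preimage (Subtype.val_injective.injOn)
        (hN.proper x₀ h₀ (r ^ 2))) ?_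
      intro g hg
      have h1 : √(lor x₀ ((g : LV m ≃ₗ[ℝ] LV m) x₀)) ≤ r := hg
      refine ⟨g.2, ?_⟩
      have h2 := fut_lor_nonneg (hyp_fut h₀) (futo (Sum.inl g))
      calc lor x₀ ((g : LV m ≃ₗ[ℝ] LV m) x₀) = √(lor x₀ ((g : LV m ≃ₗ[ℝ] LV m) x₀)) ^ 2 :=
            (Real.sq_sqrt h2).symm
        _ ≤ r ^ 2 := pow_le_pow_left₀ (Real.sqrt_nonneg _) h1 2
    · intro r
      refine Set.Finite.subset (Set.Finite.preimage (Subtype.val_injective.injOn)
        (finite_cone hT h₀ (r ^ 2))) ?_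
      intro B hB
      have h1 : √(lor x₀ (B : LV m)) ≤ r := hB
      refine ⟨B.2, ?_⟩
      have h2 := fut_lor_nonneg (hyp_fut h₀) (futo (Sum.inr B))
      calc lor x₀ (B : LV m) = √(lor x₀ (B : LV m)) ^ 2 := (Real.sq_sqrt h2).symm
        _ ≤ r ^ 2 := pow_le_pow_left₀ (Real.sqrt_nonneg _) h1 2
    · intro e e' g h
      exact hdist e e' g g.2 (by rw [← act_coe, h])
  · intro e γ v hv hγ
    show Tt (ξ e) ((lor ((γ : LV m ≃ₗ[ℝ] LV m) x₀) (ξ e : LV m))⁻¹ •
        ((γ : LV m ≃ₗ[ℝ] LV m) x₀)) - Tt (ξ e) ((lor x₀ (ξ e : LV m))⁻¹ • x₀) = T e v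
    have ha : 1 ≤ lor x₀ (ξ e : LV m) := hout _ (ξ e).2
    have e1 : lor ((γ : LV m ≃ₗ[ℝ] LV m) x₀) (ξ e : LV m) = lor x₀ (ξ e : LV m) := by
      nth_rewrite 1 [← hγ.1]
      exact hN.lor_map γ γ.2 _ _
    rw [e1]
    set a := lor x₀ (ξ e : LV m) with hadef
    obtain ⟨r, hr⟩ := hγ.2 (a⁻¹ • x₀) (by
      rw [lor_smul_left, ← hadef, inv_mul_cancel₀ (by linarith)])
    rw [map_smul (γ : LV m ≃ₗ[ℝ] LV m)] at hr
    rw [hr, map_add, map_add, map_smul (Tt (ξ e)) r, (hcc (ξ e)).map_self, smul_zero, add_zero,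
      (hmark e).2.2 v hv]
    abel

end Run7.h913
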