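import Pool.Agent.Run7.h230.Tasks

set_option autoImplicit false

/-! Lorentz algebra for task E of MP_77db41_gt. -/

namespace Run7.h913

open Run7.h230

section Lor

variable {m : ℕ}

theorem lor_comm (x y : LV m) : lor x y = lor y x := by
  unfold lor
  rw [mul_comm]
  congr 1
  exact Finset.sum_congr rfl (fun i _ => mul_comm _ _)

theorem lor_add_left (x y z : LV m) : lor (x + y) z = lor x z + lor y z := by
  unfold lor
  simp only [Pi.add_apply, add_mul, Finset.sum_add_distrib]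
  ring

theorem lor_smul_left (a : ℝ) (x z : LV m) : lor (a • x) z = a * lor x z := by
  unfold lor
  simp only [Pi.smul_apply, smul_eq_mul, mul_assoc]
  rw [← Finset.mul_sum]; ring

theorem lor_add_right (x y z : LV m) : lor x (y + z) = lor x y + lor x z := by
  rw [lor_comm, lor_add_left, lor_comm y, lor_comm z]

theorem lor_smul_right (a : ℝ) (x z : LV m) : lor x (a • z) = a * lor x z := by
  rw [lor_comm, lor_smul_left, lor_comm]

theorem lor_neg_left (x z : LV m) : lor (-x) z = - lor x z := by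
  have := lor_smul_left (-1) x z
  simpa using this

theorem lor_neg_right (x z : LV m) : lor x (-z) = - lor x z := by
  rw [lor_comm, lor_neg_left, lor_comm]

theorem lor_sub_left (x y z : LV m) : lor (x - y) z = lor x z - lor y z := by
  rw [sub_eq_add_neg, lor_add_left, lor_neg_left]; ring

theorem lor_sub_right (x y z : LV m) : lor x (y - z) = lor x y - lor x z := by
  rw [sub_eq_add_neg, lor_add_right, lor_neg_right]; ring

theorem continuous_lor : Continuous (fun p : LV m × LV m => lor p.1 p.2) := by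
  unfold lor
  fun_prop

/-- spatial part -/
noncomputable def sp (x : LV m) : EuclideanSpace ℝ (Fin m) := WithLp.toLp 2 (fun i => x i.succ)

theorem lor_eq (x y : LV m) : lor x y = x 0 * y 0 - inner ℝ (sp x) (sp y) := by
  unfold lor
  congr 1
  rw [PiLp.inner_apply]
  refine Finset.sum_congr rfl (fun i _ => ?_)
  simp [sp, mul_comm]

theorem lor_self (x : LV m) : lor x x = x 0 ^ 2 - ‖sp x‖ ^ 2 := by
  rw [lor_eq, real_inner_self_eq_norm_sq]; ring

/-- future causal vectors -/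
def Fut (m : ℕ) : Set (LV m) := {x | 0 ≤ lor x x ∧ 0 < x 0}

theorem hyp_fut {x : LV m} (hx : x ∈ Hyp m) : x ∈ Fut m := ⟨by rw [hx.1]; norm_num, hx.2⟩

theorem cone_fut {x : LV m} (hx : x ∈ Cone m) : x ∈ Fut m := ⟨by rw [hx.1], hx.2⟩

theorem fut_norm {x : LV m} (hx : x ∈ Fut m) : ‖sp x‖ ≤ x 0 := by
  have h := hx.1
  rw [lor_self] at h
  exact le_of_sq_le_sq₀' (by linarith) hx.2.le
where
  le_of_sq_le_sq₀' {a b : ℝ} (h : a ^ 2 ≤ b ^ 2) (hb : 0 ≤ b) : a ≤ b := by
    exact abs_le_of_sq_le_sq' h hb |>.2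

theorem lor_ge (x y : LV m) : x 0 * y 0 - ‖sp x‖ * ‖sp y‖ ≤ lor x y := by
  rw [lor_eq]
  have := real_inner_le_norm (sp x) (sp y)
  linarith

theorem fut_lor_nonneg {x y : LV m} (hx : x ∈ Fut m) (hy : y ∈ Fut m) : 0 ≤ lor x y := by
  have h1 := fut_norm hx
  have h2 := fut_norm hy
  have h3 := lor_ge x y
  have h4 : ‖sp x‖ * ‖sp y‖ ≤ x 0 * y 0 := mul_le_mul h1 h2 (norm_nonneg _) hx.2.le
  linarith

theorem hyp_hyp {x y : LV m} (hx : x ∈ Hyp m) (hy : y ∈ Hyp m) : 1 ≤ lor x y := by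
  have h1 := fut_norm (hyp_fut hx)
  have h2 := fut_norm (hyp_fut hy)
  have h3 := lor_ge x y
  have e1 := hx.1
  have e2 := hy.1
  rw [lor_self] at e1 e2
  have h4 : ‖sp x‖ * ‖sp y‖ ≤ x 0 * y 0 := mul_le_mul h1 h2 (norm_nonneg _) hx.2.le
  have h5 : 1 ≤ (x 0 * y 0 - ‖sp x‖ * ‖sp y‖) ^ 2 := by
    have : (x 0 * y 0 - ‖sp x‖ * ‖sp y‖) ^ 2 =
        (x 0 ^ 2 - ‖sp x‖ ^ 2) * (y 0 ^ 2 - ‖sp y‖ ^ 2) + (x 0 * ‖sp y‖ - ‖sp x‖ * y 0) ^ 2 := by
      ring
    rw [this, e1, e2]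
    have := sq_nonneg (x 0 * ‖sp y‖ - ‖sp x‖ * y 0)
    linarith
  have h6 : 1 ≤ x 0 * y 0 - ‖sp x‖ * ‖sp y‖ := by
    by_contra hc
    push Not at hc
    nlinarith
  linarith

theorem hyp_lt {x : LV m} (hx : x ∈ Hyp m) : ‖sp x‖ < x 0 := by
  have e1 := hx.1
  rw [lor_self] at e1
  have h1 := fut_norm (hyp_fut hx)
  rcases lt_or_eq_of_le h1 with h | h
  · exact h
  · rw [h] at e1; linarith

theorem cone_norm {x : LV m} (hx : x ∈ Cone m) : ‖sp x‖ = x 0 := by
  have e1 := hx.1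
  rw [lor_self] at e1
  have : (‖sp x‖) ^ 2 = x 0 ^ 2 := by linarith
  have h2 := hx.2
  rw [sq_eq_sq₀ (norm_nonneg _) h2.le] at this
  exact this

/-- lower bound of the product of a point of `Hyp` and a causal vector -/
theorem hyp_fut_ge {x y : LV m} (hx : x ∈ Hyp m) (hy : y ∈ Fut m) :
    (x 0 - ‖sp x‖) * y 0 ≤ lor x y := by
  have h2 := fut_norm hy
  have h3 := lor_ge x y
  have h4 : ‖sp x‖ * ‖sp y‖ ≤ ‖sp x‖ * y 0 := mul_le_mul_of_nonneg_left h2 (norm_nonneg _)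
  nlinarith

theorem hyp_fut_pos {x y : LV m} (hx : x ∈ Hyp m) (hy : y ∈ Fut m) : 0 < lor x y := by
  have h1 := hyp_fut_ge hx hy
  have h2 := hyp_lt hx
  have h3 := hy.2
  have : 0 < (x 0 - ‖sp x‖) * y 0 := mul_pos (by linarith) h3
  linarith

theorem fut_of_lor {y ξ : LV m} (hξ : ξ ∈ Fut m) (h0 : 0 ≤ lor y y) (h1 : 0 < lor y ξ) :
    0 < y 0 := by
  by_contra hc
  push Not at hc
  rw [lor_self] at h0
  have h2 : ‖sp y‖ ≤ - y 0 := by
    have : ‖sp y‖ ^ 2 ≤ (- y 0) ^ 2 := by nlinarith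
    exact abs_le_of_sq_le_sq' this (by linarith) |>.2
  have h3 := fut_norm hξ
  have h4 : lor y ξ ≤ y 0 * ξ 0 + ‖sp y‖ * ‖sp ξ‖ := by
    rw [lor_eq]
    have := neg_le_of_abs_le (abs_real_inner_le_norm (sp y) (sp ξ))
    linarith
  have h5 : ‖sp y‖ * ‖sp ξ‖ ≤ (- y 0) * ξ 0 := mul_le_mul h2 h3 (norm_nonneg _) (by linarith)
  linarith

/-- normalisation of `v` modulo `w` -/
noncomputable def nz (w : LV m) : LV m →ₗ[ℝ] LV m where
  toFun v := v - (v 0 / w 0) • w
  map_add' a b := by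
    simp only [Pi.add_apply, add_div, add_smul]
    abel
  map_smul' a b := by
    simp only [Pi.smul_apply, smul_eq_mul, RingHom.id_apply, smul_sub, mul_div_assoc, mul_smul]

theorem nz_apply (w v : LV m) : nz w v = v - (v 0 / w 0) • w := rfl

theorem nz_zero {w : LV m} (hw : 0 < w 0) (v : LV m) : nz w v 0 = 0 := by
  rw [nz_apply]
  simp only [Pi.sub_apply, Pi.smul_apply, smul_eq_mul]
  field_simp
  ring

theorem nz_self {w : LV m} (hw : 0 < w 0) : nz w w = 0 := by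
  rw [nz_apply, div_self hw.ne', one_smul, sub_self]

theorem lor_nz {w v : LV m} (hw : w ∈ Cone m) (hv : lor v w = 0) :
    lor (nz w v) (nz w v) = lor v v := by
  rw [nz_apply]
  rw [lor_sub_left, lor_sub_right, lor_sub_right, lor_smul_left, lor_smul_left, lor_smul_right,
    lor_smul_right, hw.1, lor_comm w v, hv]
  ring

theorem lor_nz_w {w v : LV m} (hw : w ∈ Cone m) (hv : lor v w = 0) : lor (nz w v) w = 0 := by
  rw [nz_apply, lor_sub_left, lor_smul_left, hw.1, hv]; ring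

theorem lor_self_of_zero {v : LV m} (hv : v 0 = 0) : lor v v = - ∑ i : Fin m, v i.succ ^ 2 := by
  unfold lor
  rw [hv]
  simp [sq]

theorem lor_perp_nonpos {w v : LV m} (hw : w ∈ Cone m) (hv : lor v w = 0) : lor v v ≤ 0 := by
  rw [← lor_nz hw hv, lor_self_of_zero (nz_zero hw.2 v)]
  have : 0 ≤ ∑ i : Fin m, nz w v i.succ ^ 2 := Finset.sum_nonneg (fun i _ => sq_nonneg _)
  linarith

theorem lor_perp_eq {w v : LV m} (hw : w ∈ Cone m) (hv : lor v w = 0) (h0 : lor v v = 0) :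
    ∃ r : ℝ, v = r • w := by
  rw [← lor_nz hw hv, lor_self_of_zero (nz_zero hw.2 v), neg_eq_zero,
    Finset.sum_eq_zero_iff_of_nonneg (fun i _ => sq_nonneg _)] at h0
  refine ⟨v 0 / w 0, ?_⟩
  have h1 : nz w v = 0 := by
    funext j
    refine Fin.cases ?_ (fun i => ?_) j
    · exact nz_zero hw.2 v
    · have := h0 i (Finset.mem_univ _)
      exact pow_eq_zero_iff (two_ne_zero) |>.1 this
  rw [nz_apply, sub_eq_zero] at h1
  exact h1

/-! ### Ptolemy -/

/-- the unit vectors -/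
noncomputable def uu (X : Fin 4 → LV m) (i : Fin 4) : EuclideanSpace ℝ (Fin m ⊕ Fin 4) :=
  WithLp.toLp 2 (Sum.elim (fun k => X i k.succ / X i 0)
    (fun l => if l = i then √(lor (X i) (X i)) / X i 0 else 0))

theorem dist_uu {X : Fin 4 → LV m} (hX : ∀ i, X i ∈ Fut m) {i j : Fin 4} (hij : i ≠ j) :
    dist (uu X i) (uu X j) = √(2 * lor (X i) (X j) / (X i 0 * X j 0)) := by
  rw [EuclideanSpace.dist_eq]
  congr 1
  rw [Fintype.sum_sum_type]
  have hi := (hX i).2
  have hj := (hX j).2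
  have e1 : ∑ a : Fin m, dist ((uu X i) (Sum.inl a)) ((uu X j) (Sum.inl a)) ^ 2 =
      (∑ a : Fin m, X i a.succ * X i a.succ) / (X i 0) ^ 2 +
        (∑ a : Fin m, X j a.succ * X j a.succ) / (X j 0) ^ 2
        - 2 * (∑ a : Fin m, X i a.succ * X j a.succ) / (X i 0 * X j 0) := by
    rw [Finset.sum_div, Finset.sum_div, Finset.mul_sum, Finset.sum_div, ← Finset.sum_add_distrib,
      ← Finset.sum_sub_distrib]
    refine Finset.sum_congr rfl (fun a _ => ?_)
    rw [Real.dist_eq, sq_abs]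
    simp only [uu, Sum.elim_inl]
    field_simp
    ring
  have e2 : ∑ a : Fin 4, dist ((uu X i) (Sum.inr a)) ((uu X j) (Sum.inr a)) ^ 2 =
      lor (X i) (X i) / (X i 0) ^ 2 + lor (X j) (X j) / (X j 0) ^ 2 := by
    have e3 : ∀ a : Fin 4, dist ((uu X i) (Sum.inr a)) ((uu X j) (Sum.inr a)) ^ 2 =
        (if a = i then lor (X i) (X i) / (X i 0) ^ 2 else 0) +
        (if a = j then lor (X j) (X j) / (X j 0) ^ 2 else 0) := by
      intro a
      rw [Real.dist_eq, sq_abs]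
      simp only [uu, Sum.elim_inr]
      by_cases hai : a = i
      · subst hai
        rw [if_pos rfl, if_neg hij, if_pos rfl, if_neg hij, sub_zero, add_zero, div_pow,
          Real.sq_sqrt (hX a).1]
      · rw [if_neg hai, if_neg hai]
        by_cases haj : a = j
        · subst haj
          rw [if_pos rfl, if_pos rfl, zero_sub, neg_sq, div_pow, Real.sq_sqrt (hX a).1, zero_add]
        · rw [if_neg haj, if_neg haj]; simp
    rw [Finset.sum_congr rfl (fun a _ => e3 a), Finset.sum_add_distrib]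
    simp
  rw [e1, e2]
  unfold lor
  field_simp
  ring

theorem ptol {x y z w : LV m} (hx : x ∈ Fut m) (hy : y ∈ Fut m) (hz : z ∈ Fut m)
    (hw : w ∈ Fut m) :
    √(lor x y) * √(lor z w) ≤ √(lor x z) * √(lor y w) + √(lor x w) * √(lor y z) := by
  have hX : ∀ i, (![x, y, z, w] : Fin 4 → LV m) i ∈ Fut m := by
    intro i
    fin_cases i
    exacts [hx, hy, hz, hw]
  have h := EuclideanGeometry.mul_dist_le_mul_dist_add_mul_dist (uu ![x, y, z, w] 0)
    (uu ![x, y, z, w] 2) (uu ![x, y, z, w] 1) (uu ![x, y, z, w] 3)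
  rw [dist_uu hX (by decide : (0 : Fin 4) ≠ 1), dist_uu hX (by decide : (2 : Fin 4) ≠ 3),
    dist_uu hX (by decide : (0 : Fin 4) ≠ 2), dist_uu hX (by decide : (1 : Fin 4) ≠ 3),
    dist_uu hX (by decide : (2 : Fin 4) ≠ 1), dist_uu hX (by decide : (0 : Fin 4) ≠ 3)] at h
  simp only [Matrix.cons_val_zero, Matrix.cons_val_one, Matrix.cons_val] at h
  have hx0 := hx.2
  have hy0 := hy.2
  have hz0 := hz.2
  have hw0 := hw.2
  have key : ∀ a b p q r s : ℝ, 0 < p → 0 < q → 0 < r → 0 < s → 0 ≤ a → 0 ≤ b →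
      √(2 * a / (p * q)) * √(2 * b / (r * s)) = (√a * √b) * (2 / √(p * q * (r * s))) := by
    intro a b p q r s hp hq hr hs ha hb
    rw [← Real.sqrt_mul (by positivity), ← Real.sqrt_mul ha]
    have : 2 * a / (p * q) * (2 * b / (r * s)) = (a * b) * (2 ^ 2 / (p * q * (r * s))) := by
      field_simp
    rw [this, Real.sqrt_mul (by positivity), Real.sqrt_div (by positivity),
      Real.sqrt_sq (by norm_num)]
  rw [key _ _ _ _ _ _ hx0 hy0 hz0 hw0 (fut_lor_nonneg hx hy) (fut_lor_nonneg hz hw),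
    key _ _ _ _ _ _ hx0 hz0 hy0 hw0 (fut_lor_nonneg hx hz) (fut_lor_nonneg hy hw),
    key _ _ _ _ _ _ hz0 hy0 hx0 hw0 (fut_lor_nonneg hz hy) (fut_lor_nonneg hx hw)] at h
  have e1 : x 0 * z 0 * (y 0 * w 0) = x 0 * y 0 * (z 0 * w 0) := by ring
  have e2 : z 0 * y 0 * (x 0 * w 0) = x 0 * y 0 * (z 0 * w 0) := by ring
  rw [e1, e2, ← add_mul] at h
  have hpos : 0 < 2 / √(x 0 * y 0 * (z 0 * w 0)) := by positivity
  have h' := le_of_mul_le_mul_right h hpos
  rw [lor_comm z y] at h'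
  linarith [h', mul_comm √(lor y z) √(lor x w)]

end Lor

end Run7.h913
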