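import Pool.Agent.Run7.h913.EA

set_option autoImplicit false

/-! Horoballs of a truncated manifold, for task E of MP_77db41_gt. -/

namespace Run7.h913

open Run7.h230

variable {m : ℕ}

theorem push_hyp {ξ y : LV m} (hξ : ξ ∈ Cone m) (hy : lor y ξ = 1) :
    ∃ r : ℝ, y + r • ξ ∈ Hyp m ∧ lor (y + r • ξ) ξ = 1 := by
  refine ⟨(1 - lor y y) / 2, ?_, ?_⟩
  · have h1 : lor (y + ((1 - lor y y) / 2) • ξ) (y + ((1 - lor y y) / 2) • ξ) = 1 := by
      rw [lor_add_left, lor_add_right, lor_add_right, lor_smul_left, lor_smul_left,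
        lor_smul_right, lor_smul_right, hξ.1, lor_comm ξ y, hy]
      ring
    refine ⟨h1, fut_of_lor (cone_fut hξ) (by rw [h1]; norm_num) ?_⟩
    rw [lor_add_left, lor_smul_left, hξ.1, hy]; norm_num
  · rw [lor_add_left, lor_smul_left, hξ.1, hy]; ring

theorem exists_horo {ξ : LV m} (hξ : ξ ∈ Cone m) : ∃ x ∈ Hyp m, lor x ξ = 1 := by
  have h0 := hξ.2
  obtain ⟨r, h1, h2⟩ := push_hyp (y := Pi.single 0 (1 / ξ 0)) hξ (by
    unfold lor
    rw [Pi.single_eq_same]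
    have : ∑ i : Fin m, (Pi.single 0 (1 / ξ 0) : LV m) i.succ * ξ i.succ = 0 := by
      refine Finset.sum_eq_zero (fun i _ => ?_)
      rw [Pi.single_eq_of_ne (Fin.succ_ne_zero i), zero_mul]
    rw [this]
    field_simp
    ring)
  exact ⟨_, h1, h2⟩

theorem smul_cone {ξ : LV m} (hξ : ξ ∈ Cone m) {t : ℝ} (ht : 0 < t) : t • ξ ∈ Cone m := by
  refine ⟨?_, ?_⟩
  · rw [lor_smul_left, lor_smul_right, hξ.1]; ring
  · simp only [Pi.smul_apply, smul_eq_mul]; exact mul_pos ht hξ.2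

theorem lor_gt_two {N : HorMfd m} (hT : N.IsTruncated) {ξ η : LV m} (hξ : ξ ∈ N.Ξ)
    (hη : η ∈ N.Ξ) (hne : ξ ≠ η) : 2 < lor ξ η := by
  by_contra hc
  push Not at hc
  have cξ := hT.cone ξ hξ
  have cη := hT.cone η hη
  have hq : 0 ≤ lor ξ η := fut_lor_nonneg (cone_fut cξ) (cone_fut cη)
  rcases hq.lt_or_eq with hq | hq
  · -- q > 0
    set q := lor ξ η with hqdef
    have hs : 0 < √(2 * q) := Real.sqrt_pos.2 (by linarith)
    set x : LV m := (1 / √(2 * q)) • (ξ + η) with hx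
    have e1 : lor x ξ = q / √(2 * q) := by
      rw [hx, lor_smul_left, lor_add_left, cξ.1, lor_comm η ξ, ← hqdef]; ring
    have e2 : lor x η = q / √(2 * q) := by
      rw [hx, lor_smul_left, lor_add_left, cη.1, ← hqdef]; ring
    have e3 : lor x x = 1 := by
      nth_rewrite 2 [hx]
      rw [lor_smul_right, lor_add_right, e1, e2]
      have := Real.mul_self_sqrt (show 0 ≤ 2 * q by linarith)
      field_simp
      nlinarith
    have hxH : x ∈ Hyp m := by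
      refine ⟨e3, ?_⟩
      simp only [hx, Pi.smul_apply, smul_eq_mul, Pi.add_apply]
      have := cξ.2
      have := cη.2
      positivity
    have h5 : q / √(2 * q) ≤ 1 := by
      rw [div_le_one hs]
      exact Real.le_sqrt_of_sq_le (by nlinarith)
    have := hT.disj ξ hξ η hη hne x hxH (by rw [e1]; exact h5)
    rw [e2] at this
    linarith
  · -- q = 0
    obtain ⟨r, hr⟩ := lor_perp_eq cξ (v := η) (by rw [lor_comm, ← hq]) cη.1
    have hr0 : 0 < r := by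
      have h1 := cη.2
      rw [hr] at h1
      simp only [Pi.smul_apply, smul_eq_mul] at h1
      exact (pos_iff_pos_of_mul_pos h1).2 cξ.2
    obtain ⟨x, hx, hx1⟩ := exists_horo (smul_cone cξ (t := max 1 r) (by positivity))
    rw [lor_smul_right] at hx1
    have h2 : 0 < lor x ξ := hyp_fut_pos hx (cone_fut cξ)
    have h3 : lor x ξ ≤ 1 := by
      have := le_max_left 1 r
      nlinarith
    have h4 : lor x η ≤ 1 := by
      rw [hr, lor_smul_right]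
      have := le_max_right 1 r
      nlinarith
    have := hT.disj ξ hξ η hη hne x hx h3
    linarith

theorem norm_fut_le {x : LV m} (hx : x ∈ Fut m) : ‖x‖ ≤ x 0 := by
  rw [pi_norm_le_iff_of_nonneg hx.2.le]
  intro j
  refine Fin.cases ?_ (fun i => ?_) j
  · rw [Real.norm_eq_abs, abs_of_pos hx.2]
  · have h1 := fut_norm hx
    have h2 : ‖(sp x) i‖ ≤ ‖sp x‖ := PiLp.norm_apply_le (sp x) i
    exact le_trans h2 h1

/-- `|lor x y| ≤ (m+1) ‖x‖ ‖y‖` -/
theorem abs_lor_le (x y : LV m) : |lor x y| ≤ (m + 1) * (‖x‖ * ‖y‖) := by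
  unfold lor
  have h0 : |x 0 * y 0| ≤ ‖x‖ * ‖y‖ := by
    rw [abs_mul]
    exact mul_le_mul (norm_le_pi_norm x 0) (norm_le_pi_norm y 0) (abs_nonneg _) (norm_nonneg _)
  have h1 : |∑ i : Fin m, x i.succ * y i.succ| ≤ m * (‖x‖ * ‖y‖) := by
    refine le_trans (Finset.abs_sum_le_sum_abs _ _) ?_
    refine le_trans (Finset.sum_le_card_nsmul _ _ (‖x‖ * ‖y‖) ?_) ?_
    · intro i _
      rw [abs_mul]
      exact mul_le_mul (norm_le_pi_norm x _) (norm_le_pi_norm y _) (abs_nonneg _) (norm_nonneg _)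
    · simp
  have := abs_sub (x 0 * y 0) (∑ i : Fin m, x i.succ * y i.succ)
  calc |x 0 * y 0 - ∑ i : Fin m, x i.succ * y i.succ|
      ≤ |x 0 * y 0| + |∑ i : Fin m, x i.succ * y i.succ| := abs_sub _ _
    _ ≤ _ := by linarith

/-- a set of horoballs of bounded size is finite -/
theorem finite_cone {N : HorMfd m} (hT : N.IsTruncated) {x : LV m} (hx : x ∈ Hyp m) (r : ℝ) :
    {ξ | ξ ∈ N.Ξ ∧ lor x ξ ≤ r}.Finite := by
  by_contra hinf
  have hc := hyp_lt hx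
  set c := x 0 - ‖sp x‖ with hcdef
  have hc0 : 0 < c := by linarith
  have hbd : ∀ ξ ∈ {ξ | ξ ∈ N.Ξ ∧ lor x ξ ≤ r}, ‖ξ‖ ≤ r / c := by
    rintro ξ ⟨h1, h2⟩
    have h3 := hyp_fut_ge hx (cone_fut (hT.cone ξ h1))
    have h4 := norm_fut_le (cone_fut (hT.cone ξ h1))
    rw [le_div_iff₀ hc0]
    nlinarith
  have hsub : {ξ | ξ ∈ N.Ξ ∧ lor x ξ ≤ r} ⊆ Metric.closedBall (0 : LV m) (r / c) := by
    intro ξ hξ
    rw [mem_closedBall_zero_iff]
    exact hbd ξ hξ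
  obtain ⟨ζ, -, hζ⟩ := Set.Infinite.exists_accPt_of_subset_isCompact hinf
    (isCompact_closedBall (0 : LV m) (r / c)) hsub
  have hR : 0 ≤ r / c := by
    obtain ⟨ξ, hξ⟩ := Set.Infinite.nonempty hinf
    exact le_trans (norm_nonneg _) (hbd ξ hξ)
  set R := r / c with hRdef
  -- radius
  set δ : ℝ := 1 / ((m + 1) * (R + 1)) with hδ
  have hm0 : (0 : ℝ) < (m + 1) * (R + 1) := by positivity
  have hδ0 : 0 < δ := by positivity
  rw [accPt_iff_nhds] at hζ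
  obtain ⟨ξ, ⟨hξ1, hξ2⟩, hξne⟩ := hζ (Metric.ball ζ (δ / 2)) (Metric.ball_mem_nhds _ (by positivity))
  have hd : 0 < dist ξ ζ := dist_pos.2 hξne
  obtain ⟨η, ⟨hη1, hη2⟩, hηne⟩ := hζ (Metric.ball ζ (min (dist ξ ζ) (δ / 2)))
    (Metric.ball_mem_nhds _ (by positivity))
  have hne : ξ ≠ η := by
    intro h
    rw [← h, Metric.mem_ball] at hη1
    have := min_le_left (dist ξ ζ) (δ / 2)
    linarith
  have h2 := lor_gt_two hT hξ2.1 hη2.1 hne
  have h3 : dist ξ η < δ := by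
    rw [Metric.mem_ball] at hξ1 hη1
    have := min_le_right (dist ξ ζ) (δ / 2)
    have := dist_triangle_right ξ η ζ
    linarith
  have h4 : lor ξ η = lor ξ (η - ξ) := by
    rw [lor_sub_right, (hT.cone ξ hξ2.1).1, sub_zero]
  have h5 := abs_lor_le ξ (η - ξ)
  have h6 : ‖η - ξ‖ < δ := by rw [← dist_eq_norm, dist_comm]; exact h3
  have h7 := hbd ξ hξ2
  have h8 : (m + 1 : ℝ) * (‖ξ‖ * ‖η - ξ‖) ≤ 1 := by
    have e1 : ‖ξ‖ * ‖η - ξ‖ ≤ (R + 1) * δ :=
      mul_le_mul (by linarith) h6.le (norm_nonneg _) (by linarith)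
    have e2 : (m + 1 : ℝ) * ((R + 1) * δ) = 1 := by
      rw [hδ]; field_simp
    have e3 : (0 : ℝ) ≤ (m + 1 : ℝ) := by positivity
    nlinarith
  rw [h4] at h2
  have := le_abs_self (lor ξ (η - ξ))
  linarith

/-- a base point outside of the horoballs -/
theorem exists_base {N : HorMfd m} (hT : N.IsTruncated) :
    ∃ x ∈ Hyp m, ∀ ξ ∈ N.Ξ, 1 ≤ lor x ξ := by
  obtain ⟨ξ, hξ⟩ := hT.nonempty
  obtain ⟨x, hx, hx1⟩ := exists_horo (hT.cone ξ hξ)
  refine ⟨x, hx, fun η hη => ?_⟩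
  by_cases h : ξ = η
  · rw [← h, hx1]
  · exact (hT.disj ξ hξ η hη h x hx hx1.le).le

theorem horo_out {N : HorMfd m} (hT : N.IsTruncated) {ξ x : LV m} (hξ : ξ ∈ N.Ξ)
    (hx : x ∈ Hyp m) (h1 : lor x ξ = 1) : ∀ η ∈ N.Ξ, 1 ≤ lor x η := by
  intro η hη
  by_cases h : ξ = η
  · rw [← h, h1]
  · exact (hT.disj ξ hξ η hη h x hx h1.le).le

/-- cocompactness -/
theorem cocomp {N : HorMfd m} (hN : N.IsMfd) (hT : N.IsTruncated) {x₀ : LV m} (_ : x₀ ∈ Hyp m) :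
    ∃ C : ℝ, 1 ≤ C ∧ ∀ x ∈ Hyp m, (∀ ξ ∈ N.Ξ, 1 ≤ lor x ξ) →
      ∃ γ ∈ N.Γ, lor x (γ x₀) ≤ C := by
  obtain ⟨K, hK, hKH, h⟩ := hT.cocompact
  have hcont : Continuous (fun x : LV m => lor x x₀) :=
    continuous_lor.comp (continuous_id.prodMk continuous_const)
  obtain ⟨C, hC⟩ := (hK.image hcont).bddAbove
  refine ⟨max 1 C, le_max_left _ _, fun x hx hout => ?_⟩
  obtain ⟨γ, hγ, hγK⟩ := h x hx hout
  refine ⟨γ⁻¹, N.Γ.inv_mem hγ, ?_⟩
  refine le_trans ?_ (le_max_right _ _)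
  have e : lor x (γ⁻¹ x₀) = lor (γ x) x₀ := by
    rw [← hN.lor_map γ hγ x]
    congr 1
    exact γ.apply_symm_apply x₀
  rw [e]
  exact hC ⟨γ x, hγK, rfl⟩

end Run7.h913
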