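import Pool.Agent.Run7.h913.EB

set_option autoImplicit false

/-! Equivariant coordinates on the horospheres, for task E of MP_77db41_gt. -/

namespace Run7.h913

open Run7.h230

variable {m : ℕ}

/-- `w` is a point: the quasi-triangle inequality -/
theorem adj {x y w : LV m} (hx : x ∈ Fut m) (hy : y ∈ Fut m) (hw : w ∈ Hyp m) :
    √(lor x y) ≤ 2 * √(lor x w) * √(lor w y) := by
  have h := ptol hx hy (hyp_fut hw) (hyp_fut hw)
  rw [hw.1, Real.sqrt_one, mul_one, lor_comm y w] at h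
  linarith

/-- the stabiliser of `ξ` acts trivially on `ξ^⊥ / ξ` -/
theorem stab_triv {N : HorMfd m} (hT : N.IsTruncated) {γ : LV m ≃ₗ[ℝ] LV m} (hγ : γ ∈ N.Γ)
    {ξ : LV m} (hξ : ξ ∈ N.Ξ) (h : γ ξ = ξ) {v : LV m} (hv : lor v ξ = 0) :
    ∃ r : ℝ, γ v = v + r • ξ := by
  obtain ⟨e, -, -, h3, -⟩ := hT.toric ξ hξ
  obtain ⟨c, -, hc⟩ := h3 γ hγ h
  obtain ⟨x, hx, hx1⟩ := exists_horo (hT.cone ξ hξ)
  obtain ⟨r1, hr1⟩ := hc x hx1
  obtain ⟨r2, hr2⟩ := hc (x + v) (by rw [lor_add_left, hx1, hv, add_zero])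
  refine ⟨r2 - r1, ?_⟩
  rw [map_add, hr1] at hr2
  have : γ v = (x + v + ∑ i, (c i : ℝ) • e i + r2 • ξ) - (x + ∑ i, (c i : ℝ) • e i + r1 • ξ) := by
    rw [← hr2]; abel
  rw [this, sub_smul]; abel

/-- existence of coordinates -/
theorem exists_cc {n : ℕ} (hm : 2 ≤ m) (hmn : m ≤ n) {ξ : LV m} (hξ : ξ ∈ Cone m) :
    ∃ (T : LV m →ₗ[ℝ] (Fin n ⊕ Fin n → ℝ)) (S : Set (Fin n ⊕ Fin n)), CuspCoord ξ T S := by
  let W : Submodule ℝ (LV m) :=
    { carrier := {v | v 0 = 0 ∧ lor v ξ = 0}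
      add_mem' := by
        rintro a b ⟨h1, h2⟩ ⟨h3, h4⟩
        refine ⟨by simp only [Pi.add_apply, h1, h3, add_zero], by rw [lor_add_left, h2, h4, add_zero]⟩
      zero_mem' := ⟨rfl, by
        have := lor_smul_left 0 ξ ξ
        simpa using this⟩
      smul_mem' := by
        rintro c a ⟨h1, h2⟩
        refine ⟨by simp only [Pi.smul_apply, h1, smul_zero], by rw [lor_smul_left, h2, mul_zero]⟩ }
  have hk : Module.finrank ℝ W ≤ Fintype.card (Fin n ⊕ Fin n) := by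
    refine le_trans (Submodule.finrank_le W) ?_
    rw [Module.finrank_pi]
    simp only [Fintype.card_fin, Fintype.card_sum]
    omega
  obtain ⟨i⟩ : Nonempty (Fin (Module.finrank ℝ W) ↪ (Fin n ⊕ Fin n)) := by
    refine Function.Embedding.nonempty_of_card_le ?_
    simpa using hk
  have b : W ≃ₗ[ℝ] (Fin (Module.finrank ℝ W) → ℝ) :=
    (Module.finBasis ℝ W).equivFun
  obtain ⟨pr, hpr⟩ := LinearMap.exists_leftInverse_of_injective W.subtype (by simp)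
  have hpr' : ∀ w : W, pr (w : LV m) = w := fun w => by
    have := LinearMap.congr_fun hpr w
    simpa using this
  have hnz : ∀ v, lor v ξ = 0 → nz ξ v ∈ W := fun v hv => ⟨nz_zero hξ.2 v, lor_nz_w hξ hv⟩
  let ex : (Fin (Module.finrank ℝ W) → ℝ) →ₗ[ℝ] (Fin n ⊕ Fin n → ℝ) :=
    Function.ExtendByZero.linearMap ℝ i
  have hex : ∀ f a, ex f (i a) = f a := fun f a => i.injective.extend_apply f 0 a
  have hex0 : ∀ f j, j ∉ Set.range i → ex f j = 0 := fun f j hj => by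
    show Function.extend i f 0 j = 0
    rw [Function.extend_apply' _ _ _ (fun ⟨a, ha⟩ => hj ⟨a, ha⟩)]
    rfl
  refine ⟨ex ∘ₗ b.toLinearMap ∘ₗ pr ∘ₗ nz ξ, Set.range i, ?_, ?_, ?_, ?_⟩
  · simp [nz_self hξ.2]
  · intro v _ j hj
    exact hex0 _ _ hj
  · intro v hv h0
    refine ⟨v 0 / ξ 0, ?_⟩
    have h1 : b (pr (nz ξ v)) = 0 := by
      funext a
      have := congrFun h0 (i a)
      simp only [LinearMap.comp_apply] at this
      rw [hex] at this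
      exact this
    have h2 : pr (nz ξ v) = 0 := by
      have := b.injective (a₁ := pr (nz ξ v)) (a₂ := 0) (by rw [h1, map_zero])
      exact this
    have h3 : pr (nz ξ v) = ⟨nz ξ v, hnz v hv⟩ := hpr' ⟨nz ξ v, hnz v hv⟩
    rw [h3] at h2
    have h4 : nz ξ v = 0 := congrArg Subtype.val h2
    rw [nz_apply, sub_eq_zero] at h4
    exact h4
  · intro y hy
    let w : W := b.symm (fun a => y (i a))
    refine ⟨(w : LV m), w.2.2, ?_⟩
    have h1 : nz ξ (w : LV m) = w := by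
      rw [nz_apply, w.2.1, zero_div, zero_smul, sub_zero]
    simp only [LinearMap.comp_apply, h1, hpr', LinearEquiv.coe_coe]
    have h2 : b w = fun a => y (i a) := b.apply_symm_apply _
    rw [h2]
    funext j
    by_cases hj : j ∈ Set.range i
    · obtain ⟨a, rfl⟩ := hj
      rw [hex]
    · rw [hex0 _ _ hj, hy j hj]

/-- constants of coordinates -/
theorem cc_const {J : Type} [Fintype J] {ξ : LV m} (hξ : ξ ∈ Cone m) {T : LV m →ₗ[ℝ] (J → ℝ)}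
    {S : Set J} (h : CuspCoord ξ T S) :
    ∃ C : ℝ, ∀ v, lor v ξ = 0 → √(- lor v v) ≤ C * ‖T v‖ ∧ ‖T v‖ ≤ C * √(- lor v v) := by
  let W : Submodule ℝ (LV m) :=
    { carrier := {v | v 0 = 0 ∧ lor v ξ = 0}
      add_mem' := by
        rintro a b ⟨h1, h2⟩ ⟨h3, h4⟩
        refine ⟨by simp only [Pi.add_apply, h1, h3, add_zero], by rw [lor_add_left, h2, h4, add_zero]⟩
      zero_mem' := ⟨rfl, by
        have := lor_smul_left 0 ξ ξ
        simpa using this⟩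
      smul_mem' := by
        rintro c a ⟨h1, h2⟩
        refine ⟨by simp only [Pi.smul_apply, h1, smul_zero], by rw [lor_smul_left, h2, mul_zero]⟩ }
  have hker : LinearMap.ker (T ∘ₗ W.subtype) = ⊥ := by
    rw [LinearMap.ker_eq_bot']
    intro w hw
    obtain ⟨r, hr⟩ := h.inj w w.2.2 hw
    have h1 := w.2.1
    rw [hr] at h1
    simp only [Pi.smul_apply, smul_eq_mul] at h1
    have h2 : r = 0 := by
      rcases mul_eq_zero.1 h1 with h1 | h1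
      · exact h1
      · exact absurd h1 hξ.2.ne'
    apply Subtype.ext
    rw [hr, h2, zero_smul]
    rfl
  obtain ⟨K, hK0, hK⟩ := LinearMap.exists_antilipschitzWith (T ∘ₗ W.subtype) hker
  set Tc : LV m →L[ℝ] (J → ℝ) := LinearMap.toContinuousLinearMap T with hTc
  refine ⟨max ((m + 1) * K) ‖Tc‖, fun v hv => ?_⟩
  have hw0 : nz ξ v 0 = 0 := nz_zero hξ.2 v
  have hwm : nz ξ v ∈ W := ⟨hw0, lor_nz_w hξ hv⟩
  have hTv : T v = T (nz ξ v) := by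
    rw [nz_apply, map_sub, map_smul, h.map_self, smul_zero, sub_zero]
  have hq : - lor v v = ∑ i : Fin m, nz ξ v i.succ ^ 2 := by
    rw [← lor_nz hξ hv, lor_self_of_zero hw0, neg_neg]
  rw [hq, hTv]
  set w := nz ξ v with hw
  have h1 : ‖w‖ ≤ K * ‖T w‖ := by
    have := hK.le_mul_dist (⟨w, hwm⟩ : W) 0
    simpa [dist_eq_norm] using this
  have h2 : √(∑ i : Fin m, w i.succ ^ 2) ≤ (m + 1) * ‖w‖ := by
    rw [Real.sqrt_le_left (by positivity)]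
    have h3 : ∑ i : Fin m, w i.succ ^ 2 ≤ m * ‖w‖ ^ 2 := by
      refine le_trans (Finset.sum_le_card_nsmul _ _ (‖w‖ ^ 2) ?_) (by simp)
      intro i _
      rw [← sq_abs]
      exact pow_le_pow_left₀ (abs_nonneg _) (norm_le_pi_norm w i.succ) 2
    have hm0 : (0 : ℝ) ≤ m := Nat.cast_nonneg m
    nlinarith [sq_nonneg ‖w‖]
  have h4 : ‖w‖ ≤ √(∑ i : Fin m, w i.succ ^ 2) := by
    rw [pi_norm_le_iff_of_nonneg (Real.sqrt_nonneg _)]
    intro j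
    refine Fin.cases ?_ (fun i => ?_) j
    · rw [hw0, norm_zero]; exact Real.sqrt_nonneg _
    · rw [Real.norm_eq_abs, ← Real.sqrt_sq_eq_abs]
      exact Real.sqrt_le_sqrt (Finset.single_le_sum (f := fun i : Fin m => w i.succ ^ 2)
        (fun i _ => sq_nonneg _) (Finset.mem_univ i))
  have hm1 : (0 : ℝ) ≤ m + 1 := by positivity
  constructor
  · calc √(∑ i : Fin m, w i.succ ^ 2) ≤ (m + 1) * ‖w‖ := h2
      _ ≤ (m + 1) * (K * ‖T w‖) := mul_le_mul_of_nonneg_left h1 hm1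
      _ = (m + 1) * K * ‖T w‖ := by ring
      _ ≤ _ := mul_le_mul_of_nonneg_right (le_max_left _ _) (norm_nonneg _)
  · calc ‖T w‖ = ‖Tc w‖ := rfl
      _ ≤ ‖Tc‖ * ‖w‖ := Tc.le_opNorm w
      _ ≤ ‖Tc‖ * √(∑ i : Fin m, w i.succ ^ 2) := mul_le_mul_of_nonneg_left h4 (norm_nonneg _)
      _ ≤ _ := mul_le_mul_of_nonneg_right (le_max_right _ _) (Real.sqrt_nonneg _)

/-- the coordinates composed with a group element -/
theorem cc_map {N : HorMfd m} (hN : N.IsMfd) {J : Type} [Fintype J] {ξ η : LV m}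
    {T : LV m →ₗ[ℝ] (J → ℝ)} {S : Set J} (h : CuspCoord ξ T S) {γ : LV m ≃ₗ[ℝ] LV m}
    (hγ : γ ∈ N.Γ) (hηξ : γ η = ξ) : CuspCoord η (T ∘ₗ γ.toLinearMap) S := by
  have e1 : ∀ v, lor v η = 0 → lor (γ v) ξ = 0 := fun v hv => by
    rw [← hηξ, hN.lor_map γ hγ, hv]
  refine ⟨?_, ?_, ?_, ?_⟩
  · simp [hηξ, h.map_self]
  · intro v hv
    exact h.supp _ (e1 v hv)
  · intro v hv h0
    obtain ⟨r, hr⟩ := h.inj (γ v) (e1 v hv) h0
    refine ⟨r, γ.injective ?_⟩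
    rw [hr, map_smul, hηξ]
  · intro y hy
    obtain ⟨v, hv, hv2⟩ := h.surj y hy
    refine ⟨γ.symm v, ?_, ?_⟩
    · rw [← hN.lor_map γ hγ, hηξ, γ.apply_symm_apply, hv]
    · simp [hv2]

/-- every horoball is near the base point up to the group -/
theorem orbit_near {N : HorMfd m} (hN : N.IsMfd) (hT : N.IsTruncated) {x₀ : LV m}
    (h₀ : x₀ ∈ Hyp m) : ∃ C : ℝ, ∀ ξ ∈ N.Ξ, ∃ γ ∈ N.Γ, lor x₀ (γ ξ) ≤ C := by
  obtain ⟨C, hC1, hC⟩ := cocomp hN hT h₀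
  refine ⟨(2 * √C) ^ 2, fun ξ hξ => ?_⟩
  obtain ⟨x, hx, hx1⟩ := exists_horo (hT.cone ξ hξ)
  obtain ⟨γ, hγ, h1⟩ := hC x hx (horo_out hT hξ hx hx1)
  refine ⟨γ⁻¹, N.Γ.inv_mem hγ, ?_⟩
  have e : lor x₀ (γ⁻¹ ξ) = lor (γ x₀) ξ := by
    rw [← hN.lor_map γ hγ x₀]
    congr 1
    exact γ.apply_symm_apply ξ
  rw [e]
  have hγx : γ x₀ ∈ Hyp m := hN.hyp_map γ hγ x₀ h₀
  have h2 := adj (hyp_fut hγx) (cone_fut (hT.cone ξ hξ)) hx
  rw [hx1, Real.sqrt_one, mul_one, lor_comm (γ x₀) x] at h2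
  have h3 : √(lor x (γ x₀)) ≤ √C := Real.sqrt_le_sqrt h1
  have h4 : √(lor (γ x₀) ξ) ≤ 2 * √C := by linarith
  have h5 := fut_lor_nonneg (hyp_fut hγx) (cone_fut (hT.cone ξ hξ))
  calc lor (γ x₀) ξ = √(lor (γ x₀) ξ) ^ 2 := (Real.sq_sqrt h5).symm
    _ ≤ _ := pow_le_pow_left₀ (Real.sqrt_nonneg _) h4 2

/-- the orbit relation -/
def orb (N : HorMfd m) : Setoid N.Ξ where
  r a b := ∃ γ ∈ N.Γ, γ (a : LV m) = b
  iseqv :=
    { refl := fun a => ⟨1, N.Γ.one_mem, rfl⟩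
      symm := by
        rintro a b ⟨γ, hγ, h⟩
        refine ⟨γ⁻¹, N.Γ.inv_mem hγ, ?_⟩
        rw [← h]
        exact γ.symm_apply_apply _
      trans := by
        rintro a b c ⟨γ, hγ, h⟩ ⟨δ, hδ, h'⟩
        refine ⟨δ * γ, N.Γ.mul_mem hδ hγ, ?_⟩
        rw [LinearEquiv.mul_apply, h, h'] }

theorem orb_finite {N : HorMfd m} (hN : N.IsMfd) (hT : N.IsTruncated) :
    Finite (Quotient (orb N)) := by
  obtain ⟨x₀, h₀, -⟩ := exists_base hT
  obtain ⟨C, hC⟩ := orbit_near hN hT h₀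
  have hfin := finite_cone hT h₀ C
  have : Finite {ξ | ξ ∈ N.Ξ ∧ lor x₀ ξ ≤ C} := hfin
  refine Finite.of_surjective
    (fun ξ : {ξ | ξ ∈ N.Ξ ∧ lor x₀ ξ ≤ C} => Quotient.mk (orb N) ⟨ξ.1, ξ.2.1⟩) ?_
  intro q
  induction q using Quotient.inductionOn with
  | h a =>
    obtain ⟨γ, hγ, h⟩ := hC a a.2
    refine ⟨⟨γ a, hT.inv γ hγ a a.2, h⟩, ?_⟩
    refine Quotient.sound ?_
    refine ⟨γ⁻¹, N.Γ.inv_mem hγ, ?_⟩
    exact γ.symm_apply_apply _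

/-- Equivariant coordinates. -/
theorem coords {n : ℕ} {N : HorMfd m} (hN : N.IsMfd) (hT : N.IsTruncated) (hm : 2 ≤ m)
    (hmn : m ≤ n) {E : Type} [Finite E] (ξ : E → N.Ξ)
    (hdist : ∀ e e', ∀ γ ∈ N.Γ, γ (ξ e : LV m) = ξ e' → e = e')
    (T : E → LV m →ₗ[ℝ] (Fin n ⊕ Fin n → ℝ)) (S : E → Set (Fin n ⊕ Fin n))
    (hTS : ∀ e, CuspCoord (ξ e : LV m) (T e) (S e))
    (SF : Set (Fin n)) (α : E → (Fin n ⊕ Fin n → ℝ) →ₗ[ℝ] (Fin n → ℝ))
    (hα : ∀ e v, Supp SF (α e v)) :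
    ∃ (Tt : N.Ξ → LV m →ₗ[ℝ] (Fin n ⊕ Fin n → ℝ)) (St : N.Ξ → Set (Fin n ⊕ Fin n))
      (αt : N.Ξ → (Fin n ⊕ Fin n → ℝ) →ₗ[ℝ] (Fin n → ℝ)),
      (∀ η : N.Ξ, CuspCoord (η : LV m) (Tt η) (St η)) ∧
      (∀ γ ∈ N.Γ, ∀ η η' : N.Ξ, γ (η : LV m) = η' →
        (∀ v, lor v (η : LV m) = 0 → Tt η' (γ v) = Tt η v) ∧ St η' = St η ∧ αt η' = αt η) ∧
      (∀ e, St (ξ e) = S e ∧ αt (ξ e) = α e ∧ ∀ v, lor v (ξ e : LV m) = 0 →
        Tt (ξ e) v = T e v) ∧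
      (∃ Λ : ℝ, ∀ η v, ‖αt η v‖ ≤ Λ * ‖v‖) ∧ (∀ η v, Supp SF (αt η v)) ∧
      ∃ C : ℝ, ∀ (η : N.Ξ) (v : LV m), lor v (η : LV m) = 0 →
        √(- lor v v) ≤ C * ‖Tt η v‖ ∧ ‖Tt η v‖ ≤ C * √(- lor v v) := by
  classical
  -- data on the representatives
  have hrep : ∀ r : N.Ξ, ∃ (T' : LV m →ₗ[ℝ] (Fin n ⊕ Fin n → ℝ)) (S' : Set (Fin n ⊕ Fin n))
      (α' : (Fin n ⊕ Fin n → ℝ) →ₗ[ℝ] (Fin n → ℝ)),
      CuspCoord (r : LV m) T' S' ∧ (∀ v, Supp SF (α' v)) ∧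
      ∀ e, ∀ γ ∈ N.Γ, γ (r : LV m) = ξ e → S' = S e ∧ α' = α e ∧
        ∀ v, lor v (r : LV m) = 0 → T' v = T e (γ v) := by
    intro r
    by_cases h : ∃ e, ∃ γ ∈ N.Γ, γ (r : LV m) = ξ e
    · obtain ⟨e, γ, hγ, h⟩ := h
      refine ⟨T e ∘ₗ γ.toLinearMap, S e, α e, cc_map hN (hTS e) hγ h, hα e, ?_⟩
      intro e' γ' hγ' h'
      have hee : e = e' := by
        refine hdist e e' (γ' * γ⁻¹) (N.Γ.mul_mem hγ' (N.Γ.inv_mem hγ)) ?_
        rw [LinearEquiv.mul_apply, ← h, ← h']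
        congr 1
        exact γ.symm_apply_apply _
      subst hee
      refine ⟨rfl, rfl, fun v hv => ?_⟩
      -- γ' γ⁻¹ stabilises ξ e
      have hs : (γ * γ'⁻¹) (ξ e : LV m) = ξ e := by
        rw [LinearEquiv.mul_apply]
        nth_rewrite 1 [← h']
        have : (γ'⁻¹) (γ' (r : LV m)) = r := γ'.symm_apply_apply _
        rw [this, h]
      obtain ⟨ρ, hρ⟩ := stab_triv hT (N.Γ.mul_mem hγ (N.Γ.inv_mem hγ')) (ξ e).2 hs
        (v := γ' v) (by rw [← h', hN.lor_map γ' hγ', hv])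
      have h2 : (γ * γ'⁻¹) (γ' v) = γ v := by
        rw [LinearEquiv.mul_apply]
        congr 1
        exact γ'.symm_apply_apply _
      rw [h2] at hρ
      show T e (γ v) = T e (γ' v)
      rw [hρ, map_add, map_smul, (hTS e).map_self, smul_zero, add_zero]
    · obtain ⟨T', S', h'⟩ := exists_cc hm hmn (hT.cone r r.2)
      refine ⟨T', S', 0, h', fun v j _ => rfl, fun e γ hγ he => absurd ⟨e, γ, hγ, he⟩ h⟩
  choose T' S' α' hcc hsupp hmark using hrep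
  let rep : N.Ξ → N.Ξ := fun η => (Quotient.mk (orb N) η).out
  have hg : ∀ η : N.Ξ, ∃ γ ∈ N.Γ, γ (η : LV m) = rep η := fun η => by
    have : (orb N).r η (rep η) := (orb N).symm (Quotient.mk_out (s := orb N) η)
    exact this
  choose g hgm hg using hg
  have hrepeq : ∀ γ ∈ N.Γ, ∀ η η' : N.Ξ, γ (η : LV m) = η' → rep η' = rep η := by
    intro γ hγ η η' h
    have : Quotient.mk (orb N) η' = Quotient.mk (orb N) η := by
      refine Quotient.sound ((orb N).symm ⟨γ, hγ, h⟩)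
    show (Quotient.mk (orb N) η').out = (Quotient.mk (orb N) η).out
    rw [this]
  refine ⟨fun η => T' (rep η) ∘ₗ (g η).toLinearMap, fun η => S' (rep η), fun η => α' (rep η),
    ?_, ?_, ?_, ?_, ?_, ?_⟩
  · intro η
    exact cc_map hN (hcc (rep η)) (hgm η) (hg η)
  · intro γ hγ η η' h
    have hr := hrepeq γ hγ η η' h
    refine ⟨fun v hv => ?_, by simp only [hr], by simp only [hr]⟩
    show T' (rep η') (g η' (γ v)) = T' (rep η) (g η v)
    -- δ = g η' γ (g η)⁻¹ stabilises rep η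
    set δ := g η' * γ * (g η)⁻¹ with hδ
    have hδm : δ ∈ N.Γ := N.Γ.mul_mem (N.Γ.mul_mem (hgm η') hγ) (N.Γ.inv_mem (hgm η))
    have hinv : ∀ x, (g η)⁻¹ (g η x) = x := fun x => (g η).symm_apply_apply x
    have hδs : δ (rep η : LV m) = rep η := by
      rw [hδ, LinearEquiv.mul_apply, LinearEquiv.mul_apply, ← hg η, hinv, h, hg η', hr, hg η]
    obtain ⟨ρ, hρ⟩ := stab_triv hT hδm (rep η).2 hδs (v := g η v)
      (by rw [← hg η, hN.lor_map (g η) (hgm η), hv])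
    rw [hδ, LinearEquiv.mul_apply, LinearEquiv.mul_apply, hinv] at hρ
    rw [hρ, hr, map_add, map_smul, (hcc (rep η)).map_self, smul_zero, add_zero]
  · intro e
    have hinv : ∀ x, (g (ξ e))⁻¹ (g (ξ e) x) = x := fun x => (g (ξ e)).symm_apply_apply x
    obtain ⟨h1, h2, h3⟩ := hmark (rep (ξ e)) e (g (ξ e))⁻¹ (N.Γ.inv_mem (hgm _))
      (by rw [← hg (ξ e), hinv])
    refine ⟨h1, h2, fun v hv => ?_⟩
    show T' (rep (ξ e)) (g (ξ e) v) = T e v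
    rw [h3 _ (by rw [← hg (ξ e), hN.lor_map _ (hgm _), hv]), hinv]
  · have := orb_finite hN hT
    have h1 : ∀ r : N.Ξ, ∃ Λ : ℝ, ∀ v, ‖α' r v‖ ≤ Λ * ‖v‖ := fun r =>
      ⟨‖LinearMap.toContinuousLinearMap (α' r)‖,
        fun v => (LinearMap.toContinuousLinearMap (α' r)).le_opNorm v⟩
    choose Λ hΛ using h1
    obtain ⟨M, hM⟩ := (Set.finite_range (fun q : Quotient (orb N) => Λ q.out)).bddAbove
    refine ⟨M, fun η v => le_trans (hΛ _ v) (mul_le_mul_of_nonneg_right ?_ (norm_nonneg _))⟩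
    exact hM ⟨Quotient.mk (orb N) η, rfl⟩
  · intro η v
    exact hsupp _ v
  · have := orb_finite hN hT
    have h1 : ∀ r : N.Ξ, ∃ C : ℝ, ∀ v, lor v (r : LV m) = 0 →
        √(- lor v v) ≤ C * ‖T' r v‖ ∧ ‖T' r v‖ ≤ C * √(- lor v v) := fun r =>
      cc_const (hT.cone r r.2) (hcc r)
    choose C hC using h1
    obtain ⟨M, hM⟩ := (Set.finite_range (fun q : Quotient (orb N) => C q.out)).bddAbove
    refine ⟨M, fun η v hv => ?_⟩
    have hCM : C (rep η) ≤ M := hM ⟨Quotient.mk (orb N) η, rfl⟩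
    obtain ⟨h2, h3⟩ := hC (rep η) (g η v) (by rw [← hg η, hN.lor_map _ (hgm _), hv])
    rw [hN.lor_map _ (hgm _)] at h2 h3
    exact ⟨le_trans h2 (mul_le_mul_of_nonneg_right hCM (norm_nonneg _)),
      le_trans h3 (mul_le_mul_of_nonneg_right hCM (Real.sqrt_nonneg _))⟩

end Run7.h913
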