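import Pool.Agent.Run7.h913.EC

set_option autoImplicit false

/-! Chains along geodesics, for task E of MP_77db41_gt. -/

namespace Run7.h913

open Run7.h230

variable {m : ℕ}

/-- the segment -/
noncomputable def seg (X Y : LV m) (s : ℝ) : LV m := (1 - s) • X + s • Y

/-- the geodesic -/
noncomputable def geo (X Y : LV m) (s : ℝ) : LV m :=
  (√(max 1 (lor (seg X Y s) (seg X Y s))))⁻¹ • seg X Y s

theorem continuous_seg (X Y : LV m) : Continuous (seg X Y) := by
  unfold seg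
  fun_prop

theorem continuous_geo (X Y : LV m) : Continuous (geo X Y) := by
  have h1 := continuous_seg X Y
  have h2 : Continuous (fun s => lor (seg X Y s) (seg X Y s)) :=
    continuous_lor.comp (h1.prodMk h1)
  have h3 : Continuous (fun s => √(max 1 (lor (seg X Y s) (seg X Y s)))) :=
    (continuous_const.max h2).sqrt
  unfold geo
  refine Continuous.smul (h3.inv₀ ?_) h1
  intro s
  have : 0 < √(max 1 (lor (seg X Y s) (seg X Y s))) :=
    Real.sqrt_pos.2 (lt_of_lt_of_le one_pos (le_max_left _ _))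
  exact this.ne'

theorem seg_one_le {X Y : LV m} (hX : X ∈ Hyp m) (hY : Y ∈ Hyp m) {s : ℝ} (h0 : 0 ≤ s)
    (h1 : s ≤ 1) : 1 ≤ lor (seg X Y s) (seg X Y s) := by
  unfold seg
  rw [lor_add_left, lor_add_right, lor_add_right, lor_smul_left, lor_smul_left, lor_smul_left,
    lor_smul_left, lor_smul_right, lor_smul_right, lor_smul_right, lor_smul_right, hX.1, hY.1,
    lor_comm Y X]
  have h2 := hyp_hyp hX hY
  have h3 : 0 ≤ s * (1 - s) := mul_nonneg h0 (by linarith)
  nlinarith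

theorem geo_eq {X Y : LV m} (hX : X ∈ Hyp m) (hY : Y ∈ Hyp m) {s : ℝ} (h0 : 0 ≤ s)
    (h1 : s ≤ 1) : geo X Y s = (√(lor (seg X Y s) (seg X Y s)))⁻¹ • seg X Y s := by
  unfold geo
  rw [max_eq_right (seg_one_le hX hY h0 h1)]

theorem geo_hyp {X Y : LV m} (hX : X ∈ Hyp m) (hY : Y ∈ Hyp m) {s : ℝ} (h0 : 0 ≤ s)
    (h1 : s ≤ 1) : geo X Y s ∈ Hyp m := by
  have h2 := seg_one_le hX hY h0 h1
  rw [geo_eq hX hY h0 h1]
  set q := lor (seg X Y s) (seg X Y s) with hq
  have hs : 0 < √q := Real.sqrt_pos.2 (by linarith)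
  refine ⟨?_, ?_⟩
  · rw [lor_smul_left, lor_smul_right, ← hq]
    have := Real.mul_self_sqrt (show 0 ≤ q by linarith)
    field_simp
    nlinarith
  · simp only [seg, Pi.smul_apply, smul_eq_mul, Pi.add_apply]
    have h3 := hX.2
    have h4 := hY.2
    have h5 : 0 < (1 - s) * X 0 + s * Y 0 := by
      rcases h0.lt_or_eq with h | h
      · have : 0 < s * Y 0 := mul_pos h h4
        have : 0 ≤ (1 - s) * X 0 := mul_nonneg (by linarith) h3.le
        linarith
      · rw [← h]; simpa using h3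
    exact mul_pos (inv_pos.2 hs) h5

theorem geo_zero {X : LV m} (Y : LV m) (hX : X ∈ Hyp m) : geo X Y 0 = X := by
  unfold geo seg
  simp [hX.1]

theorem geo_one (X : LV m) {Y : LV m} (hY : Y ∈ Hyp m) : geo X Y 1 = Y := by
  unfold geo seg
  simp [hY.1]

/-- betweenness -/
theorem btw_comb {a b c : LV m} (ha : a ∈ Hyp m) (hb : b ∈ Hyp m) (hc : c ∈ Hyp m) {α β : ℝ}
    (hα : 0 ≤ α) (hβ : 0 ≤ β) (h : b = α • a + β • c) :
    lor a b * lor b c ≤ lor a c := by
  have hq := hyp_hyp ha hc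
  have e1 : lor a b = α + β * lor a c := by
    rw [h, lor_add_right, lor_smul_right, lor_smul_right, ha.1]; ring
  have e2 : lor b c = α * lor a c + β := by
    rw [h, lor_add_left, lor_smul_left, lor_smul_left, hc.1]; ring
  have e3 : 1 = α ^ 2 + β ^ 2 + 2 * α * β * lor a c := by
    have h1 := hb.1
    nth_rewrite 1 [h] at h1
    rw [lor_add_left, lor_smul_left, lor_smul_left, e1, lor_comm c b, e2] at h1
    nlinarith
  rw [e1, e2]
  set q := lor a c with hqd
  have h4 : 0 ≤ α * β := mul_nonneg hα hβ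
  have h5 : 0 ≤ q ^ 2 - 1 := by nlinarith
  have h6 : 0 ≤ α * β * (q ^ 2 - 1) := mul_nonneg h4 h5
  have h7 : (α + β * q) * (α * q + β) =
      q * (α ^ 2 + β ^ 2 + 2 * α * β * q) - α * β * (q ^ 2 - 1) := by ring
  rw [h7, ← e3]
  linarith

theorem geo_btw {X Y : LV m} (hX : X ∈ Hyp m) (hY : Y ∈ Hyp m) {s t u : ℝ} (h0 : 0 ≤ s)
    (h1 : s ≤ t) (h2 : t ≤ u) (h3 : u ≤ 1) :
    lor (geo X Y s) (geo X Y t) * lor (geo X Y t) (geo X Y u) ≤
      lor (geo X Y s) (geo X Y u) := by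
  have hs := geo_hyp hX hY h0 (by linarith)
  have ht := geo_hyp hX hY (s := t) (by linarith) (by linarith)
  have hu := geo_hyp hX hY (s := u) (by linarith) h3
  rcases (le_trans h1 h2).lt_or_eq with h | h
  · set l := (t - s) / (u - s) with hl
    have hus : 0 < u - s := by linarith
    have hl0 : 0 ≤ l := div_nonneg (by linarith) hus.le
    have hl1 : l ≤ 1 := by rw [hl, div_le_one hus]; linarith
    have e : seg X Y t = (1 - l) • seg X Y s + l • seg X Y u := by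
      have e1 : t = (1 - l) * s + l * u := by
        rw [hl]; field_simp; ring
      have e2 : 1 - t = (1 - l) * (1 - s) + l * (1 - u) := by
        rw [hl]; field_simp; ring
      unfold seg
      rw [e2]
      nth_rewrite 1 [e1]
      module
    have q1 := seg_one_le hX hY h0 (show s ≤ 1 by linarith)
    have q2 := seg_one_le hX hY (s := t) (by linarith) (by linarith)
    have q3 := seg_one_le hX hY (s := u) (by linarith) h3
    have p1 : 0 < √(lor (seg X Y s) (seg X Y s)) := Real.sqrt_pos.2 (by linarith)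
    have p2 : 0 < √(lor (seg X Y t) (seg X Y t)) := Real.sqrt_pos.2 (by linarith)
    have p3 : 0 < √(lor (seg X Y u) (seg X Y u)) := Real.sqrt_pos.2 (by linarith)
    refine btw_comb hs ht hu
      (α := (√(lor (seg X Y t) (seg X Y t)))⁻¹ * (1 - l) * √(lor (seg X Y s) (seg X Y s)))
      (β := (√(lor (seg X Y t) (seg X Y t)))⁻¹ * l * √(lor (seg X Y u) (seg X Y u)))
      ?_ ?_ ?_
    · have : 0 ≤ 1 - l := by linarith
      positivity
    · positivity
    · rw [geo_eq hX hY (s := t) (by linarith) (by linarith),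
        geo_eq hX hY (s := s) (by linarith) (by linarith),
        geo_eq hX hY (s := u) (by linarith) (by linarith)]
      rw [smul_smul, smul_smul]
      have e4 : (√(lor (seg X Y t) (seg X Y t)))⁻¹ * (1 - l) * √(lor (seg X Y s) (seg X Y s)) *
          (√(lor (seg X Y s) (seg X Y s)))⁻¹ = (√(lor (seg X Y t) (seg X Y t)))⁻¹ * (1 - l) := by
        rw [mul_assoc, mul_inv_cancel₀ p1.ne', mul_one]
      have e5 : (√(lor (seg X Y t) (seg X Y t)))⁻¹ * l * √(lor (seg X Y u) (seg X Y u)) *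
          (√(lor (seg X Y u) (seg X Y u)))⁻¹ = (√(lor (seg X Y t) (seg X Y t)))⁻¹ * l := by
        rw [mul_assoc, mul_inv_cancel₀ p3.ne', mul_one]
      rw [e4, e5, mul_smul, mul_smul, ← smul_add, ← e]
  · have e1 : t = s := by linarith
    rw [← h, e1, hs.1]
    norm_num

/-- the chain along the geodesic -/
theorem chain_pts {N : HorMfd m} (hT : N.IsTruncated) {X Y : LV m} (hX : X ∈ Hyp m)
    (hY : Y ∈ Hyp m) (oX : ∀ ξ ∈ N.Ξ, 1 ≤ lor X ξ) (oY : ∀ ξ ∈ N.Ξ, 1 ≤ lor Y ξ) :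
    ∃ (n : ℕ) (c : ℕ → LV m), n ≠ 0 ∧ c 0 = X ∧ c n = Y ∧
      (∀ i, i ≤ n → c i ∈ Hyp m ∧ ∀ ξ ∈ N.Ξ, 1 ≤ lor (c i) ξ) ∧
      (∀ i, i < n → lor (c i) (c (i + 1)) ≤ 2 ∨
        ∃ ξ ∈ N.Ξ, lor (c i) ξ = 1 ∧ lor (c (i + 1)) ξ = 1) ∧
      ∀ i j k, i ≤ j → j ≤ k → k ≤ n → lor (c i) (c j) * lor (c j) (c k) ≤ lor (c i) (c k) := by
  set g := geo X Y with hg
  have hgc : Continuous g := continuous_geo X Y
  have hgξ : ∀ ξ : LV m, Continuous (fun s => lor (g s) ξ) := fun ξ =>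
    continuous_lor.comp (hgc.prodMk continuous_const)
  set K : Set ℝ := {s | s ∈ Set.Icc (0 : ℝ) 1 ∧ ∀ ξ ∈ N.Ξ, 1 ≤ lor (g s) ξ} with hK
  have hKclosed : IsClosed K := by
    have : K = Set.Icc (0 : ℝ) 1 ∩ ⋂ ξ ∈ N.Ξ, {s | 1 ≤ lor (g s) ξ} := by
      ext s
      simp [hK]
    rw [this]
    refine isClosed_Icc.inter (isClosed_biInter fun ξ _ => ?_)
    exact isClosed_le continuous_const (hgξ ξ)
  have hKhyp : ∀ s ∈ K, g s ∈ Hyp m := fun s hs => geo_hyp hX hY hs.1.1 hs.1.2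
  have h0K : (0 : ℝ) ∈ K := ⟨⟨le_refl _, zero_le_one⟩, by
    rw [hg, geo_zero Y hX]; exact oX⟩
  have h1K : (1 : ℝ) ∈ K := ⟨⟨zero_le_one, le_refl _⟩, by
    rw [hg, geo_one X hY]; exact oY⟩
  set R : ℝ → ℝ → Prop := fun s t => lor (g s) (g t) ≤ 2 ∨
    ∃ ξ ∈ N.Ξ, lor (g s) ξ = 1 ∧ lor (g t) ξ = 1 with hR
  set A : Set ℝ := {s | s ∈ K ∧ ∃ (n : ℕ) (f : ℕ → ℝ), f 0 = 0 ∧ f n = s ∧
    (∀ i, i ≤ n → f i ∈ K) ∧ ∀ i, i < n → f i ≤ f (i + 1) ∧ R (f i) (f (i + 1))} with hA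
  have hstep : ∀ s ∈ A, ∀ t ∈ K, s ≤ t → R s t → t ∈ A := by
    rintro s ⟨hsK, n, f, f0, fn, fK, fR⟩ t ht hst hRst
    refine ⟨ht, n + 1, fun i => if i ≤ n then f i else t, ?_, ?_, ?_, ?_⟩
    · simp [f0]
    · simp
    · intro i _
      by_cases h : i ≤ n
      · simp only [h, if_true]; exact fK i h
      · simp only [h, if_false]; exact ht
    · intro i hi
      have h : i ≤ n := by omega
      simp only [h, if_true]
      by_cases h' : i + 1 ≤ n
      · simp only [h', if_true]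
        exact fR i (by omega)
      · simp only [h', if_false]
        have : i = n := by omega
        rw [this, fn]
        exact ⟨hst, hRst⟩
  have h0A : (0 : ℝ) ∈ A := ⟨h0K, 0, fun _ => 0, rfl, rfl, fun _ _ => h0K,
    fun i hi => absurd hi (by omega)⟩
  have hAbdd : BddAbove A := ⟨1, fun s hs => hs.1.1.2⟩
  set σ := sSup A with hσ
  have hσcl : σ ∈ closure A := csSup_mem_closure ⟨0, h0A⟩ hAbdd
  have hσK : σ ∈ K := hKclosed.closure_subset_iff.2 (fun s hs => hs.1) hσcl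
  have hσ1 : lor (g σ) (g σ) = 1 := (hKhyp σ hσK).1
  obtain ⟨δ, hδ0, hδ⟩ : ∃ δ > 0, ∀ s, |s - σ| < δ → lor (g s) (g σ) < 2 := by
    have h1 := (hgξ (g σ)).continuousAt (x := σ)
    rw [Metric.continuousAt_iff] at h1
    obtain ⟨δ, h2, h3⟩ := h1 1 one_pos
    refine ⟨δ, h2, fun s hs => ?_⟩
    have h4 := h3 (x := s) (by rw [Real.dist_eq]; exact hs)
    rw [Real.dist_eq, hσ1] at h4
    have := (abs_lt.1 h4).2
    linarith
  have hσA : σ ∈ A := by
    obtain ⟨s, hs, hs2⟩ := exists_lt_of_lt_csSup ⟨0, h0A⟩ (show σ - δ < sSup A by linarith)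
    have hsσ : s ≤ σ := le_csSup hAbdd hs
    refine hstep s hs σ hσK hsσ (Or.inl (hδ s ?_).le)
    rw [abs_lt]; constructor <;> linarith
  have hσ1' : σ = 1 := by
    by_contra hne
    have hlt : σ < 1 := lt_of_le_of_ne hσK.1.2 hne
    have hgap : ∀ s ∈ K, σ < s → σ + δ ≤ s := by
      intro s hs hσs
      by_contra hc
      push Not at hc
      have h1 : lor (g s) (g σ) < 2 := hδ s (by rw [abs_lt]; constructor <;> linarith)
      have h2 : s ∈ A := hstep σ hσA s hs hσs.le (Or.inl (by rw [lor_comm]; exact h1.le))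
      have := le_csSup hAbdd h2
      linarith
    set B : Set ℝ := K ∩ Set.Ici (σ + δ) with hB
    have hBne : B.Nonempty := ⟨1, h1K, hgap 1 h1K hlt⟩
    have hBbdd : BddBelow B := ⟨σ + δ, fun s hs => hs.2⟩
    have hBcl : IsClosed B := hKclosed.inter isClosed_Ici
    have hτB : sInf B ∈ B := hBcl.csInf_mem hBne hBbdd
    set τ := sInf B with hτ
    have hστ : σ < τ := by
      have : σ + δ ≤ τ := hτB.2
      linarith
    have hout : ∀ s ∈ Set.Ioo σ τ, ∃ ξ ∈ N.Ξ, lor (g s) ξ < 1 := by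
      intro s hs
      have h1 : s ∉ K := by
        intro hsK
        have h2 := hgap s hsK hs.1
        have h3 : τ ≤ s := csInf_le hBbdd ⟨hsK, h2⟩
        have := hs.2
        linarith
      by_contra hc
      push Not at hc
      exact h1 ⟨⟨by linarith [hσK.1.1, hs.1], by linarith [hτB.1.1.2, hs.2]⟩, hc⟩
    obtain ⟨ξ, hξ, hξ1⟩ : ∃ ξ ∈ N.Ξ, ∀ s ∈ Set.Ioo σ τ, lor (g s) ξ < 1 := by
      have hmid : (σ + τ) / 2 ∈ Set.Ioo σ τ := ⟨by linarith, by linarith⟩
      obtain ⟨ξ, hξ, hξ0⟩ := hout _ hmid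
      refine ⟨ξ, hξ, ?_⟩
      by_contra hc
      push Not at hc
      obtain ⟨s, hs, hs1⟩ := hc
      obtain ⟨η, hη, hη1⟩ := hout s hs
      have hηξ : ξ ≠ η := fun h => by rw [h] at hs1; linarith
      have hpre := isPreconnected_Ioo (a := σ) (b := τ)
      have hU : IsOpen {s | lor (g s) ξ < 1} := isOpen_lt (hgξ ξ) continuous_const
      have hV : IsOpen (⋃ η ∈ {η | η ∈ N.Ξ ∧ ξ ≠ η}, {s | lor (g s) η < 1}) :=
        isOpen_biUnion fun η _ => isOpen_lt (hgξ η) continuous_const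
      obtain ⟨t, ht, ht1, ht2⟩ := hpre _ _ hU hV (by
          intro t ht
          obtain ⟨ζ, hζ, hζ1⟩ := hout t ht
          by_cases h : ξ = ζ
          · left; rw [h]; exact hζ1
          · right
            simp only [Set.mem_iUnion]
            exact ⟨ζ, ⟨hζ, h⟩, hζ1⟩) ⟨_, hmid, hξ0⟩ ⟨s, hs, by
              simp only [Set.mem_iUnion]
              exact ⟨η, ⟨hη, hηξ⟩, hη1⟩⟩
      simp only [Set.mem_iUnion] at ht2
      obtain ⟨ζ, ⟨hζ, hζne⟩, hζ1⟩ := ht2
      have htH : g t ∈ Hyp m := geo_hyp hX hY (by linarith [hσK.1.1, ht.1])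
        (by linarith [hτB.1.1.2, ht.2])
      have h3 := hT.disj ξ hξ ζ hζ hζne (g t) htH (le_of_lt ht1)
      have h4 : lor (g t) ζ < 1 := hζ1
      linarith
    have hcl : ∀ s ∈ Set.Icc σ τ, lor (g s) ξ ≤ 1 := by
      have h1 : closure (Set.Ioo σ τ) = Set.Icc σ τ := closure_Ioo hστ.ne
      rw [← h1]
      have h2 : IsClosed {s | lor (g s) ξ ≤ 1} := isClosed_le (hgξ ξ) continuous_const
      exact fun s hs => h2.closure_subset_iff.2 (fun s hs => (hξ1 s hs).le) hs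
    have hRστ : R σ τ := Or.inr ⟨ξ, hξ,
      le_antisymm (hcl σ ⟨le_refl _, hστ.le⟩) (hσK.2 ξ hξ),
      le_antisymm (hcl τ ⟨hστ.le, le_refl _⟩) (hτB.1.2 ξ hξ)⟩
    have h5 := hstep σ hσA τ hτB.1 hστ.le hRστ
    have := le_csSup hAbdd h5
    linarith
  rw [hσ1'] at hσA
  obtain ⟨-, n, f, f0, fn, fK, fR⟩ := hσA
  have hn : n ≠ 0 := by
    intro h
    rw [h, f0] at fn
    exact zero_ne_one fn
  have hmono : ∀ i j, i ≤ j → j ≤ n → f i ≤ f j := by
    intro i j hij
    induction j, hij using Nat.le_induction with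
    | base => intro _; exact le_refl _
    | succ j hij ih => intro hj; exact le_trans (ih (by omega)) (fR j (by omega)).1
  refine ⟨n, fun i => g (f i), hn, ?_, ?_, ?_, ?_, ?_⟩
  · show g (f 0) = X
    rw [f0, hg, geo_zero Y hX]
  · show g (f n) = Y
    rw [fn, hg, geo_one X hY]
  · intro i hi
    exact ⟨hKhyp _ (fK i hi), (fK i hi).2⟩
  · intro i hi
    exact (fR i hi).2
  · intro i j k hij hjk hk
    exact geo_btw hX hY (fK i (by omega)).1.1 (hmono i j hij (by omega)) (hmono j k hjk hk)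
      (fK k hk).1.2

end Run7.h913
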